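import Mathlib

/-!
# Decision trees with rounds

The inputs are real vectors `w : ι → ℝ`. A continuous family `pot` of special inputs is given, with
parameters in a space `P`. In a round many tests are made simultaneously; the tests of a round may
depend on the outcomes of the previous rounds, but not on each other.
-/

set_option autoImplicit false
set_option linter.unusedSectionVars false

namespace Pool.Agent.H692.KS

open Filter Topology

variable {ι : Type} [Fintype ι] {P : Type} [TopologicalSpace P]

/-- a function (with integer values) which is locally constant near `pot x`, for a dense set of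
parameters `x` -/
def Shallow (pot : P → ι → ℝ) (f : (ι → ℝ) → ℤ) : Prop :=
  Dense {x : P | ∀ᶠ w in 𝓝 (pot x), f w = f (pot x)}

/-- For generic parameters `x` (a comeagre set) the function `f` is differentiable at `pot x`, and it
is not zero or its derivative is not zero. -/
def Regular (pot : P → ι → ℝ) (f : (ι → ℝ) → ℝ) : Prop :=
  ∀ᶠ x in residual P, DifferentiableAt ℝ f (pot x) ∧ (f (pot x) ≠ 0 ∨ fderiv ℝ f (pot x) ≠ 0)

/-- Decision trees with outputs in `β`. A node asks for the value of a shallow function (`free`), or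
it is a round: the signs of any `q` regular functions are determined simultaneously. The tree may be
infinite, but each of its branches is finite. -/
inductive RTree (pot : P → ι → ℝ) (β : Type) : Type
  | leaf (b : β) : RTree pot β
  | free (f : (ι → ℝ) → ℤ) (hf : Shallow pot f) (next : ℤ → RTree pot β) : RTree pot β
  | round (q : ℕ) (g : Fin q → (ι → ℝ) → ℝ) (hg : ∀ i, Regular pot (g i))
      (next : (Fin q → SignType) → RTree pot β) : RTree pot β

variable {pot : P → ι → ℝ}

/-- the output -/
noncomputable def RTree.run {β : Type} : RTree pot β → (ι → ℝ) → β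
  | .leaf b, _ => b
  | .free f _ next, w => (next (f w)).run w
  | .round _ g _ next, w => (next fun i => SignType.sign (g i w)).run w

/-- the number of the rounds for the input `w` -/
noncomputable def RTree.rounds {β : Type} : RTree pot β → (ι → ℝ) → ℕ
  | .leaf _, _ => 0
  | .free f _ next, w => (next (f w)).rounds w
  | .round _ g _ next, w => (next fun i => SignType.sign (g i w)).rounds w + 1

/-- the number of the tests of regular functions which are made for the input `w`, in all rounds
together -/
noncomputable def RTree.tests {β : Type} : RTree pot β → (ι → ℝ) → ℕ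
  | .leaf _, _ => 0
  | .free f _ next, w => (next (f w)).tests w
  | .round q g _ next, w => (next fun i => SignType.sign (g i w)).tests w + q

/-! ### the reduced tree near a special input -/

/-- the value of a linear form -/
def dot (L : ι → ℝ) (w : ι → ℝ) : ℝ := ∑ e, L e * w e

/-- trees of linear tests; tests of the zero form have a fixed outcome -/
inductive LT (ι : Type) : Type
  | leaf (b : Bool) : LT ι
  | round (m : ℕ) (L : Fin m → ι → ℝ) (σ : Fin m → SignType)
      (next : (Fin m → SignType) → LT ι) : LT ι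

open Classical in
/-- the outcomes of the tests of a round -/
noncomputable def ans {m : ℕ} (L : Fin m → ι → ℝ) (σ : Fin m → SignType) (u : ι → ℝ) :
    Fin m → SignType :=
  fun i => if L i = 0 then σ i else SignType.sign (dot (L i) u)

noncomputable def LT.run : LT ι → (ι → ℝ) → Bool
  | .leaf b, _ => b
  | .round _ L σ next, u => (next (ans L σ u)).run u

noncomputable def LT.rounds : LT ι → (ι → ℝ) → ℕ
  | .leaf _, _ => 0
  | .round _ L σ next, u => (next (ans L σ u)).rounds u + 1

/-- the number of all tests -/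
noncomputable def LT.tests : LT ι → (ι → ℝ) → ℕ
  | .leaf _, _ => 0
  | .round m L σ next, u => (next (ans L σ u)).tests u + m

/-- no nonzero linear form which is tested vanishes -/
def LT.Gen : LT ι → (ι → ℝ) → Prop
  | .leaf _, _ => True
  | .round _ L σ next, u => (∀ i, L i ≠ 0 → dot (L i) u ≠ 0) ∧ (next (ans L σ u)).Gen u

open Classical in
/-- the derivative as a vector of coefficients -/
noncomputable def grad (f : (ι → ℝ) → ℝ) (p : ι → ℝ) : ι → ℝ :=
  fun e => fderiv ℝ f p fun j => if e = j then 1 else 0

open Classical in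
/-- the reduction near a special input -/
noncomputable def red {β : Type} (φ : β → Bool) : RTree pot β → P → LT ι
  | .leaf b, _ => .leaf (φ b)
  | .free f _ next, x => red φ (next (f (pot x))) x
  | .round q g _ next, x =>
    .round q (fun i => if g i (pot x) = 0 then grad (g i) (pot x) else 0)
      (fun i => SignType.sign (g i (pot x))) fun a => red φ (next a) x

/-- the reduced tree describes the tree near the special input -/
def Good {β : Type} (φ : β → Bool) (t : RTree pot β) (x : P) : Prop :=
  ∀ u : ι → ℝ, (red φ t x).Gen u → ∀ᶠ ε in 𝓝[>] (0 : ℝ),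
    φ (t.run (pot x + ε • u)) = (red φ t x).run u ∧
      (red φ t x).rounds u = t.rounds (pot x + ε • u) ∧
      (red φ t x).tests u = t.tests (pot x + ε • u)

theorem tendsto_line (p u : ι → ℝ) : Tendsto (fun ε : ℝ => p + ε • u) (𝓝[>] 0) (𝓝 p) := by
  have h : Tendsto (fun ε : ℝ => p + ε • u) (𝓝 0) (𝓝 (p + (0 : ℝ) • u)) :=
    (continuous_const.add (continuous_id.smul continuous_const)).tendsto 0
  rw [zero_smul, add_zero] at h
  exact h.mono_left nhdsWithin_le_nhds

theorem shallow_residual (hpot : Continuous pot) {f : (ι → ℝ) → ℤ} (hf : Shallow pot f) :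
    ∀ᶠ x in residual P, ∀ᶠ w in 𝓝 (pot x), f w = f (pot x) := by
  refine residual_of_dense_open ?_ hf
  rw [isOpen_iff_mem_nhds]
  intro x hx
  have h1 := hpot.continuousAt.eventually (eventually_eventually_nhds.2 hx)
  filter_upwards [h1] with y hy
  have h2 : f (pot y) = f (pot x) := hy.self_of_nhds
  show ∀ᶠ w in 𝓝 (pot y), f w = f (pot y)
  filter_upwards [hy] with w hw
  rw [hw, h2]

/-- the sign of a differentiable function near a zero -/
theorem sign_diff {f : (ι → ℝ) → ℝ} {p : ι → ℝ} (hf : DifferentiableAt ℝ f p) (h0 : f p = 0)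
    {u : ι → ℝ} (hu : fderiv ℝ f p u ≠ 0) :
    ∀ᶠ ε in 𝓝[>] (0 : ℝ), SignType.sign (f (p + ε • u)) = SignType.sign (fderiv ℝ f p u) := by
  have h1 : HasDerivAt (fun ε : ℝ => f (p + ε • u)) (fderiv ℝ f p u) 0 := by
    have h2 : HasDerivAt (fun ε : ℝ => p + ε • u) u 0 := by
      simpa using ((hasDerivAt_id (0 : ℝ)).smul_const u).const_add p
    have h3 : HasFDerivAt f (fderiv ℝ f p) (p + (0 : ℝ) • u) := by
      rw [zero_smul, add_zero]
      exact hf.hasFDerivAt
    exact h3.comp_hasDerivAt 0 h2
  have h2 := h1.tendsto_slope_zero_right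
  simp only [zero_add, zero_smul, add_zero, h0, sub_zero, smul_eq_mul] at h2
  rcases lt_or_gt_of_ne hu with h | h
  · filter_upwards [h2.eventually (gt_mem_nhds h), self_mem_nhdsWithin] with ε h3 h4
    have h4' : (0 : ℝ) < ε := h4
    have h5 : f (p + ε • u) < 0 := by
      by_contra hc
      push Not at hc
      exact absurd (mul_nonneg (inv_pos.2 h4').le hc) (not_le.2 h3)
    rw [sign_neg h5, sign_neg h]
  · filter_upwards [h2.eventually (lt_mem_nhds h), self_mem_nhdsWithin] with ε h3 h4
    have h4' : (0 : ℝ) < ε := h4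
    have h5 : 0 < f (p + ε • u) := by
      by_contra hc
      push Not at hc
      exact absurd (mul_nonpos_of_nonneg_of_nonpos (inv_pos.2 h4').le hc) (not_le.2 h3)
    rw [sign_pos h5, sign_pos h]

theorem dot_grad (f : (ι → ℝ) → ℝ) (p u : ι → ℝ) : dot (grad f p) u = fderiv ℝ f p u := by
  classical
  have h := LinearMap.pi_apply_eq_sum_univ (fderiv ℝ f p).toLinearMap u
  simp only [ContinuousLinearMap.coe_coe, smul_eq_mul] at h
  rw [h]
  unfold dot grad
  refine Finset.sum_congr rfl fun e _ => ?_
  rw [mul_comm]

theorem good (hpot : Continuous pot) {β : Type} (φ : β → Bool) (t : RTree pot β) :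
    ∀ᶠ x in residual P, Good φ t x := by
  induction t with
  | leaf b =>
    exact Eventually.of_forall fun x u _ => Eventually.of_forall fun ε => ⟨rfl, rfl, rfl⟩
  | free f hf next ih =>
    filter_upwards [shallow_residual hpot hf, eventually_countable_forall.2 ih] with x h1 h2 u hu
    filter_upwards [h2 (f (pot x)) u hu, (tendsto_line (pot x) u).eventually h1]
      with ε h4 h5
    unfold RTree.run RTree.rounds RTree.tests
    rw [h5]
    exact h4
  | round q g hg next ih =>
    filter_upwards [eventually_countable_forall.2 hg, eventually_countable_forall.2 ih]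
      with x h1 h2 u hu
    obtain ⟨hu1, hu2⟩ := hu
    set L : Fin q → ι → ℝ := fun i => if g i (pot x) = 0 then grad (g i) (pot x) else 0 with hL
    set σ : Fin q → SignType := fun i => SignType.sign (g i (pot x)) with hσ
    have h3 : ∀ᶠ ε in 𝓝[>] (0 : ℝ), ∀ i, SignType.sign (g i (pot x + ε • u)) = ans L σ u i := by
      refine eventually_all.2 fun i => ?_
      by_cases h0 : g i (pot x) = 0
      · have e1 : L i = grad (g i) (pot x) := by simp only [hL]; rw [if_pos h0]
        have h4 : fderiv ℝ (g i) (pot x) ≠ 0 := by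
          rcases (h1 i).2 with h | h
          · exact absurd h0 h
          · exact h
        have h5 : L i ≠ 0 := by
          rw [e1]
          intro h6
          refine h4 (ContinuousLinearMap.ext fun v => ?_)
          rw [← dot_grad, h6]
          unfold dot
          simp
        have h6 := hu1 i h5
        rw [e1, dot_grad] at h6
        filter_upwards [sign_diff (h1 i).1 h0 h6] with ε h7
        unfold ans
        rw [if_neg h5, h7, e1, dot_grad]
      · have e1 : L i = 0 := by simp only [hL]; rw [if_neg h0]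
        have h7 : ∀ᶠ w in 𝓝 (pot x), SignType.sign (g i w) = SignType.sign (g i (pot x)) := by
          have hc := (h1 i).1.continuousAt
          rcases lt_or_gt_of_ne h0 with h | h
          · filter_upwards [hc.eventually (gt_mem_nhds h)] with w hw
            rw [sign_neg hw, sign_neg h]
          · filter_upwards [hc.eventually (lt_mem_nhds h)] with w hw
            rw [sign_pos hw, sign_pos h]
        filter_upwards [(tendsto_line (pot x) u).eventually h7] with ε h8
        unfold ans
        rw [if_pos e1, h8]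
    filter_upwards [h2 (ans L σ u) u hu2, h3] with ε h4 h5
    have h6 : (fun i => SignType.sign (g i (pot x + ε • u))) = ans L σ u := funext h5
    have e2 : (red φ (.round q g hg next) x) = .round q L σ fun a => red φ (next a) x := rfl
    rw [e2]
    unfold RTree.run RTree.rounds RTree.tests LT.run LT.rounds LT.tests
    rw [h6]
    exact ⟨h4.1, by rw [h4.2.1], by rw [h4.2.2]⟩

/-- analytic functions which do not vanish of the second order at all special inputs are regular, if
the special inputs are parametrized analytically by `ℝ ^ d` -/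
theorem regular_analytic {d : ℕ} {pot : (Fin d → ℝ) → ι → ℝ} (hpot : AnalyticOnNhd ℝ pot Set.univ)
    {f : (ι → ℝ) → ℝ} (hf : AnalyticOnNhd ℝ f Set.univ)
    (h : ∃ x, f (pot x) ≠ 0 ∨ fderiv ℝ f (pot x) ≠ 0) : Regular pot f := by
  have hdiff : ∀ x, DifferentiableAt ℝ f (pot x) :=
    fun x => (hf (pot x) (Set.mem_univ _)).differentiableAt
  have hop : ∀ g : (ι → ℝ) → ℝ, AnalyticOnNhd ℝ g Set.univ → (∃ x, g (pot x) ≠ 0) →
      ∀ᶠ x in residual (Fin d → ℝ), g (pot x) ≠ 0 := by
    intro g hg hx
    obtain ⟨x₀, h0⟩ := hx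
    have hgp : AnalyticOnNhd ℝ (fun x => g (pot x)) Set.univ := fun x _ =>
      AnalyticAt.fun_comp (hg (pot x) (Set.mem_univ _)) (hpot x (Set.mem_univ _))
    have hcont : Continuous fun x => g (pot x) := by
      rw [continuous_iff_continuousAt]
      exact fun w => (hgp w (Set.mem_univ _)).continuousAt
    refine residual_of_dense_open (isOpen_ne_fun hcont continuous_const) ?_
    intro x
    rw [mem_closure_iff_frequently]
    intro hev
    have h1 : ∀ᶠ y in 𝓝 x, g (pot y) = 0 := by
      filter_upwards [hev] with y hy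
      by_contra hc
      exact hy hc
    have h2 := hgp.eqOn_zero_of_preconnected_of_eventuallyEq_zero isPreconnected_univ
      (Set.mem_univ x) h1
    exact h0 (h2 (Set.mem_univ x₀))
  obtain ⟨x₀, h0 | h0⟩ := h
  · filter_upwards [hop f hf ⟨x₀, h0⟩] with x hx
    exact ⟨hdiff x, Or.inl hx⟩
  · obtain ⟨v, hv⟩ : ∃ v, fderiv ℝ f (pot x₀) v ≠ 0 := by
      by_contra! hcon
      exact h0 (ContinuousLinearMap.ext hcon)
    have hg : AnalyticOnNhd ℝ (fun w => fderiv ℝ f w v) Set.univ := by
      intro w hw
      have h1 : AnalyticAt ℝ (fderiv ℝ f) w := (hf w hw).fderiv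
      exact ((ContinuousLinearMap.apply ℝ ℝ v).analyticAt _).comp h1
    filter_upwards [hop _ hg ⟨x₀, hv⟩] with x hx
    refine ⟨hdiff x, Or.inr fun h1 => hx ?_⟩
    rw [h1]
    rfl

/-! ### generic points -/

theorem dot_continuous (L : ι → ℝ) : Continuous (dot L) := by
  unfold dot
  fun_prop

theorem dot_add (L : ι → ℝ) (p u : ι → ℝ) : dot L (p + u) = dot L p + dot L u := by
  unfold dot
  rw [← Finset.sum_add_distrib]
  exact Finset.sum_congr rfl fun e _ => by rw [Pi.add_apply]; ring

theorem dot_smul (L : ι → ℝ) (ε : ℝ) (u : ι → ℝ) : dot L (ε • u) = ε * dot L u := by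
  unfold dot
  rw [Finset.mul_sum]
  exact Finset.sum_congr rfl fun e _ => by rw [Pi.smul_apply, smul_eq_mul]; ring

theorem dot_add_smul (L : ι → ℝ) (p u : ι → ℝ) (ε : ℝ) :
    dot L (p + ε • u) = dot L p + ε * dot L u := by
  rw [dot_add, dot_smul]

theorem dot_single [DecidableEq ι] (L : ι → ℝ) (e : ι) (a : ℝ) :
    dot L (Pi.single e a) = L e * a := by
  unfold dot
  rw [Finset.sum_eq_single e]
  · rw [Pi.single_eq_same]
  · intro b _ hb
    rw [Pi.single_eq_of_ne hb, mul_zero]
  · intro h
    exact absurd (Finset.mem_univ _) h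

theorem exists_coeff {L : ι → ℝ} (hL : L ≠ 0) : ∃ e, L e ≠ 0 := by
  by_contra! h
  exact hL (funext h)

theorem exists_dot_ne {L : ι → ℝ} (hL : L ≠ 0) : ∃ v : ι → ℝ, dot L v ≠ 0 := by
  classical
  obtain ⟨e, he⟩ := exists_coeff hL
  exact ⟨Pi.single e 1, by rw [dot_single, mul_one]; exact he⟩

/-- moving a little in a direction makes nonzero forms nonzero -/
theorem eventually_dot_ne (L : ι → ℝ) (p u : ι → ℝ) (h : dot L p ≠ 0 ∨ dot L u ≠ 0) :
    ∀ᶠ ε in 𝓝[>] (0 : ℝ), dot L (p + ε • u) ≠ 0 := by
  by_cases hp : dot L p = 0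
  · have hu : dot L u ≠ 0 := h.resolve_left (fun h => h hp)
    filter_upwards [self_mem_nhdsWithin] with ε hε
    rw [dot_add_smul, hp, zero_add]
    exact mul_ne_zero (ne_of_gt hε) hu
  · have h1 := (dot_continuous L).continuousAt.eventually (IsOpen.mem_nhds isOpen_ne hp)
    exact (tendsto_line p u).eventually h1

/-- a vector at which finitely many nonzero forms do not vanish, near a given one -/
theorem exists_generic {κ : Type} [Finite κ] (L : κ → ι → ℝ) {U : Set (ι → ℝ)} (hU : IsOpen U)
    {p : ι → ℝ} (hp : p ∈ U) : ∃ u ∈ U, ∀ i, L i ≠ 0 → dot (L i) u ≠ 0 := by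
  classical
  have := Fintype.ofFinite κ
  have key : ∀ s : Finset κ, ∃ u ∈ U, ∀ i ∈ s, L i ≠ 0 → dot (L i) u ≠ 0 := by
    intro s
    induction s using Finset.induction_on with
    | empty => exact ⟨p, hp, fun i hi => absurd hi (Finset.notMem_empty _)⟩
    | insert i s _ ih =>
      obtain ⟨u, hu, h1⟩ := ih
      by_cases h0 : L i = 0
      · refine ⟨u, hu, fun j hj hj0 => ?_⟩
        rcases Finset.mem_insert.1 hj with rfl | hj
        · exact absurd h0 hj0
        · exact h1 j hj hj0
      · obtain ⟨v, hv⟩ := exists_dot_ne h0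
        have h2 : ∀ᶠ ε in 𝓝[>] (0 : ℝ), u + ε • v ∈ U :=
          (tendsto_line u v).eventually (hU.mem_nhds hu)
        have h3 : ∀ᶠ ε in 𝓝[>] (0 : ℝ), ∀ j : κ, j ∈ s → L j ≠ 0 →
            dot (L j) (u + ε • v) ≠ 0 := by
          refine eventually_all.2 fun j => ?_
          by_cases hj : j ∈ s ∧ L j ≠ 0
          · filter_upwards [eventually_dot_ne (L j) u v (Or.inl (h1 j hj.1 hj.2))] with ε h _ _
            exact h
          · exact Eventually.of_forall fun ε h4 h5 => absurd ⟨h4, h5⟩ hj
        have h4 := eventually_dot_ne (L i) u v (Or.inr hv)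
        obtain ⟨ε, ⟨h5, h6⟩, h7⟩ := ((h2.and h3).and h4).exists
        refine ⟨u + ε • v, h5, fun j hj hj0 => ?_⟩
        rcases Finset.mem_insert.1 hj with rfl | hj
        · exact h7
        · exact h6 j hj hj0
  obtain ⟨u, hu, h⟩ := key Finset.univ
  exact ⟨u, hu, fun i hi => h i (Finset.mem_univ _) hi⟩

/-- the vectors for which the nonzero forms have the same signs as for `u` -/
def cell {m : ℕ} (L : Fin m → ι → ℝ) (u : ι → ℝ) : Set (ι → ℝ) :=
  {v | ∀ i, L i ≠ 0 → 0 < dot (L i) u * dot (L i) v}

theorem cell_open {m : ℕ} (L : Fin m → ι → ℝ) (u : ι → ℝ) : IsOpen (cell L u) := by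
  have h : cell L u = ⋂ i, {v | L i ≠ 0 → 0 < dot (L i) u * dot (L i) v} := by
    ext v
    simp [cell]
  rw [h]
  refine isOpen_iInter_of_finite fun i => ?_
  by_cases h0 : L i = 0
  · have : {v : ι → ℝ | L i ≠ 0 → 0 < dot (L i) u * dot (L i) v} = Set.univ := by
      ext v
      simp [h0]
    rw [this]
    exact isOpen_univ
  · have : {v : ι → ℝ | L i ≠ 0 → 0 < dot (L i) u * dot (L i) v} =
        {v | 0 < dot (L i) u * dot (L i) v} := by
      ext v
      simp [h0]
    rw [this]
    exact isOpen_lt continuous_const (continuous_const.mul (dot_continuous _))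

theorem mem_cell {m : ℕ} {L : Fin m → ι → ℝ} {u : ι → ℝ}
    (h : ∀ i, L i ≠ 0 → dot (L i) u ≠ 0) : u ∈ cell L u :=
  fun i hi => mul_self_pos.2 (h i hi)

theorem ans_cell {m : ℕ} {L : Fin m → ι → ℝ} {σ : Fin m → SignType} {u v : ι → ℝ}
    (h : v ∈ cell L u) : ans L σ v = ans L σ u := by
  funext i
  unfold ans
  split_ifs with h0
  · rfl
  · have h1 := h i h0
    rcases lt_trichotomy (dot (L i) u) 0 with h2 | h2 | h2
    · have h3 : dot (L i) v < 0 := by
        by_contra hc
        push Not at hc
        nlinarith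
      rw [sign_neg h2, sign_neg h3]
    · rw [h2, zero_mul] at h1
      exact absurd h1 (lt_irrefl _)
    · have h3 : 0 < dot (L i) v := by
        by_contra hc
        push Not at hc
        nlinarith
      rw [sign_pos h2, sign_pos h3]

theorem ne_of_cell {m : ℕ} {L : Fin m → ι → ℝ} {u v : ι → ℝ}
    (h : v ∈ cell L u) (i : Fin m) (hi : L i ≠ 0) : dot (L i) v ≠ 0 := by
  intro h0
  have := h i hi
  rw [h0, mul_zero] at this
  exact lt_irrefl _ this

theorem exists_gen (R : LT ι) : ∀ {U : Set (ι → ℝ)}, IsOpen U → U.Nonempty →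
    ∃ u ∈ U, R.Gen u := by
  induction R with
  | leaf b => exact fun _ ⟨u, hu⟩ => ⟨u, hu, trivial⟩
  | round m L σ next ih =>
    intro U hU hne
    obtain ⟨p, hp⟩ := hne
    obtain ⟨u, hu, h1⟩ := exists_generic L hU hp
    obtain ⟨v, hv, h2⟩ := ih (ans L σ u) (U := U ∩ cell L u) (hU.inter (cell_open L u))
      ⟨u, hu, mem_cell h1⟩
    refine ⟨v, hv.1, fun i hi => ne_of_cell hv.2 i hi, ?_⟩
    rw [ans_cell hv.2]
    exact h2

end Pool.Agent.H692.KS
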