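import Mathlib
import Pool.Agent.H692.KS.Model

/-!
# Random labels
-/

set_option autoImplicit false

namespace Pool.Agent.H692.KS

open Finset

/-- the variables: `n` in each of `k` parts -/
abbrev Var (k n : ℕ) : Type := Fin k × Fin n

/-- one variable from each part -/
abbrev Tup (k n : ℕ) : Type := Fin k → Fin n

/-- the value of the linear form of the tuple `s` -/
def val {k n : ℕ} (c : Fin k → ℝ) (w : Var k n → ℝ) (s : Tup k n) : ℝ := ∑ p, c p * w (p, s p)

open Classical in
/-- the coefficients of the linear form of the tuple `s` -/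
noncomputable def form {k n : ℕ} (c : Fin k → ℝ) (s : Tup k n) : Var k n → ℝ :=
  fun v => if s v.1 = v.2 then c v.1 else 0

theorem dot_form {k n : ℕ} (c : Fin k → ℝ) (w : Var k n → ℝ) (s : Tup k n) :
    dot (form c s) w = val c w s := by
  unfold dot form val
  rw [Fintype.sum_prod_type]
  refine sum_congr rfl fun p _ => ?_
  rw [sum_eq_single (s p)]
  · simp
  · intro b _ hb
    simp [hb.symm]
  · intro h
    exact absurd (mem_univ _) h

/-- one coordinate of a random function may be chosen again -/
theorem resample {ι α : Type} [Fintype ι] [DecidableEq ι] [DecidableEq α] (S : ι → Finset α)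
    (v : ι) (f : (ι → α) → ℝ) :
    ((S v).card : ℝ) * ∑ ω ∈ Fintype.piFinset S, f ω =
      ∑ ω ∈ Fintype.piFinset S, ∑ z ∈ S v, f (Function.update ω v z) := by
  rw [← sum_product', mul_sum]
  have h1 : ∑ ω ∈ Fintype.piFinset S, ((S v).card : ℝ) * f ω =
      ∑ p ∈ Fintype.piFinset S ×ˢ S v, f p.1 := by
    rw [sum_product]
    refine sum_congr rfl fun ω _ => ?_
    simp
  rw [h1]
  refine sum_bij' (fun p _ => (Function.update p.1 v p.2, p.1 v))
    (fun p _ => (Function.update p.1 v p.2, p.1 v)) ?_ ?_ ?_ ?_ ?_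
  · intro p hp
    rw [mem_product, Fintype.mem_piFinset] at hp ⊢
    refine ⟨fun i => ?_, hp.1 v⟩
    by_cases h : i = v
    · subst h
      simp [hp.2]
    · simp [h, hp.1 i]
  · intro p hp
    rw [mem_product, Fintype.mem_piFinset] at hp ⊢
    refine ⟨fun i => ?_, hp.1 v⟩
    by_cases h : i = v
    · subst h
      simp [hp.2]
    · simp [h, hp.1 i]
  · intro p _
    simp
  · intro p _
    simp
  · intro p _
    simp

variable {K n : ℕ}

/-- the labels of a variable: `0, …, x - 1`, in the last part `0, -1, …, -(K x - 1)` -/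
noncomputable def rng (K n x : ℕ) (v : Var (K + 1) n) : Finset ℝ :=
  if v.1 = Fin.last K then (range (K * x)).image fun z : ℕ => -(z : ℝ)
  else (range x).image fun z : ℕ => (z : ℝ)

theorem card_rng (x : ℕ) (v : Var (K + 1) n) :
    (rng K n x v).card = if v.1 = Fin.last K then K * x else x := by
  unfold rng
  split_ifs
  · rw [card_image_of_injective, card_range]
    intro a b h
    simpa using h
  · rw [card_image_of_injective, card_range]
    intro a b h
    simpa using h

theorem le_card_rng (hK : 1 ≤ K) (x : ℕ) (v : Var (K + 1) n) : x ≤ (rng K n x v).card := by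
  rw [card_rng]
  split_ifs
  · exact Nat.le_mul_of_pos_left x hK
  · exact le_rfl

/-- the sum of the labels of a tuple -/
def lab (ω : Var (K + 1) n → ℝ) (s : Tup (K + 1) n) : ℝ := ∑ p, ω (p, s p)

/-- the vector given by labels -/
noncomputable def qv (c : Fin (K + 1) → ℝ) (ω : Var (K + 1) n → ℝ) : Var (K + 1) n → ℝ :=
  fun v => ω v / c v.1

theorem val_qv {c : Fin (K + 1) → ℝ} (hc : ∀ p, c p ≠ 0) (ω : Var (K + 1) n → ℝ)
    (s : Tup (K + 1) n) : val c (qv c ω) s = lab ω s := by
  unfold val qv lab
  refine sum_congr rfl fun p _ => ?_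
  have := hc p
  field_simp

/-- all labels -/
noncomputable def Om (K n x : ℕ) : Finset (Var (K + 1) n → ℝ) := Fintype.piFinset (rng K n x)

theorem Om_nonempty (hK : 1 ≤ K) {x : ℕ} (hx : 0 < x) : (Om K n x).Nonempty := by
  unfold Om
  rw [Fintype.piFinset_nonempty]
  intro v
  rw [← card_pos]
  exact lt_of_lt_of_le hx (le_card_rng hK x v)

theorem lab_split (ω : Var (K + 1) n → ℝ) (s : Tup (K + 1) n) :
    lab ω s = ∑ p : Fin K, ω (p.castSucc, s p.castSucc) + ω (Fin.last K, s (Fin.last K)) := by
  unfold lab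
  rw [Fin.sum_univ_castSucc]

theorem update_lab_other (ω : Var (K + 1) n → ℝ) (s : Tup (K + 1) n) (v : Var (K + 1) n)
    (h : s v.1 ≠ v.2) (z : ℝ) : lab (Function.update ω v z) s = lab ω s := by
  unfold lab
  refine sum_congr rfl fun p _ => ?_
  rw [Function.update_of_ne]
  rintro rfl
  exact h rfl

theorem update_lab_self (ω : Var (K + 1) n → ℝ) (s : Tup (K + 1) n) (p : Fin (K + 1)) (z : ℝ) :
    lab (Function.update ω (p, s p) z) s = lab ω s - ω (p, s p) + z := by
  unfold lab
  rw [← add_sum_erase univ _ (mem_univ p),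
    ← add_sum_erase univ (fun q => ω (q, s q)) (mem_univ p)]
  rw [Function.update_self]
  have : ∑ q ∈ univ.erase p, Function.update ω (p, s p) z (q, s q) =
      ∑ q ∈ univ.erase p, ω (q, s q) := by
    refine sum_congr rfl fun q hq => ?_
    rw [Function.update_of_ne]
    intro h
    exact (mem_erase.1 hq).1 (congrArg Prod.fst h)
  rw [this]
  ring

/-- a tuple is tight with probability `1 / (K x)` -/
theorem prob_tight (hK : 1 ≤ K) (x : ℕ) (s : Tup (K + 1) n) :
    (K * x : ℝ) * ∑ ω ∈ Om K n x, (if lab ω s = 0 then (1 : ℝ) else 0) = (Om K n x).card := by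
  classical
  have h1 := resample (rng K n x) (Fin.last K, s (Fin.last K))
    fun ω => if lab ω s = 0 then (1 : ℝ) else 0
  have hcard : ((rng K n x (Fin.last K, s (Fin.last K))).card : ℝ) = K * x := by
    rw [card_rng]
    simp
  rw [hcard] at h1
  unfold Om
  rw [h1]
  have h2 : ∀ ω ∈ Fintype.piFinset (rng K n x), ∑ z ∈ rng K n x (Fin.last K, s (Fin.last K)),
      (if lab (Function.update ω (Fin.last K, s (Fin.last K)) z) s = 0 then (1 : ℝ) else 0) =
        1 := by
    intro ω hω
    rw [Fintype.mem_piFinset] at hω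
    have h3 : ∀ z, (lab (Function.update ω (Fin.last K, s (Fin.last K)) z) s = 0 ↔
        z = -∑ p : Fin K, ω (p.castSucc, s p.castSucc)) := by
      intro z
      rw [update_lab_self, lab_split]
      constructor
      · intro h; linarith
      · intro h; linarith
    simp only [h3]
    rw [sum_ite_eq' _ (-∑ p : Fin K, ω (p.castSucc, s p.castSucc)) fun _ => (1 : ℝ), if_pos]
    have h4 : ∀ p : Fin K, ∃ z : ℕ, z < x ∧ (z : ℝ) = ω (p.castSucc, s p.castSucc) := by
      intro p
      have h5 := hω (p.castSucc, s p.castSucc)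
      unfold rng at h5
      rw [if_neg (Fin.castSucc_lt_last p).ne, mem_image] at h5
      obtain ⟨z, hz, h6⟩ := h5
      exact ⟨z, mem_range.1 hz, h6⟩
    choose z hz hz' using h4
    unfold rng
    rw [if_pos rfl, mem_image]
    refine ⟨∑ p, z p, ?_, ?_⟩
    · rw [mem_range]
      have h5 : ∑ p : Fin K, z p < ∑ _p : Fin K, x := by
        refine sum_lt_sum_of_nonempty ?_ fun p _ => hz p
        exact ⟨⟨0, hK⟩, mem_univ _⟩
      simpa using h5
    · push_cast
      congr 1
      exact sum_congr rfl fun p _ => hz' p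
  rw [sum_congr rfl h2, sum_const, nsmul_eq_mul, mul_one]

/-- two tuples are both tight with probability at most `1 / (K x ^ 2)` -/
theorem prob_pair (hK : 1 ≤ K) {x : ℕ} {s s' : Tup (K + 1) n} (hne : s ≠ s') :
    (K * x ^ 2 : ℝ) * ∑ ω ∈ Om K n x, (if lab ω s = 0 ∧ lab ω s' = 0 then (1 : ℝ) else 0) ≤
      (Om K n x).card := by
  classical
  obtain ⟨p, hp⟩ : ∃ p, s p ≠ s' p := by
    by_contra! h
    exact hne (funext h)
  set u : Var (K + 1) n := (Fin.last K, s (Fin.last K)) with hu
  set v : Var (K + 1) n := (p, s' p) with hv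
  have huv : u ≠ v := by
    intro h
    rw [hu, hv, Prod.mk.injEq] at h
    obtain ⟨h1, h2⟩ := h
    subst h1
    exact hp h2
  set F : (Var (K + 1) n → ℝ) → ℝ := fun ω => if lab ω s = 0 ∧ lab ω s' = 0 then (1 : ℝ) else 0
    with hF
  have h1 := resample (rng K n x) u F
  have h2 := resample (rng K n x) v fun ω => ∑ z ∈ rng K n x u, F (Function.update ω u z)
  have hcard : ((rng K n x u).card : ℝ) = K * x := by
    rw [card_rng]
    simp [hu]
  rw [← h1, hcard] at h2
  have h3 : ∀ ω ∈ Fintype.piFinset (rng K n x), ∑ z ∈ rng K n x v, ∑ z' ∈ rng K n x u,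
      F (Function.update (Function.update ω v z) u z') ≤ 1 := by
    intro ω _
    rw [← sum_product', hF, sum_boole]
    have h4 : #{q ∈ rng K n x v ×ˢ rng K n x u |
        lab (Function.update (Function.update ω v q.1) u q.2) s = 0 ∧
        lab (Function.update (Function.update ω v q.1) u q.2) s' = 0} ≤ 1 := by
      rw [card_le_one]
      rintro ⟨z, y⟩ ha ⟨z', y'⟩ hb
      simp only [mem_filter, mem_product] at ha hb
      obtain ⟨-, ha1, ha2⟩ := ha
      obtain ⟨-, hb1, hb2⟩ := hb
      have e0 : ∀ z y : ℝ, lab (Function.update (Function.update ω v z) u y) s =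
          lab ω s - ω u + y := by
        intro z y
        rw [hu, update_lab_self, update_lab_other _ _ _ (by rw [hv]; exact hp),
          Function.update_of_ne huv]
      rw [e0] at ha1 hb1
      have e1 : y = y' := by linarith
      subst e1
      have e2 : ∀ z : ℝ, lab (Function.update (Function.update ω v z) u y) s' =
          lab (Function.update ω u y) s' - (Function.update ω u y) v + z := by
        intro z
        rw [Function.update_comm huv.symm, hv, update_lab_self]
      rw [e2] at ha2 hb2
      have e3 : z = z' := by linarith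
      rw [e3]
    exact_mod_cast h4
  have h4 : ((rng K n x v).card : ℝ) * ((K * x : ℝ) * ∑ ω ∈ Fintype.piFinset (rng K n x), F ω) ≤
      (Fintype.piFinset (rng K n x)).card := by
    rw [h2]
    refine (sum_le_sum h3).trans ?_
    rw [sum_const, nsmul_eq_mul, mul_one]
  have h5 : (x : ℝ) ≤ (rng K n x v).card := by exact_mod_cast le_card_rng hK x v
  have h6 : 0 ≤ ∑ ω ∈ Fintype.piFinset (rng K n x), F ω := by
    refine sum_nonneg fun ω _ => ?_
    rw [hF]
    beta_reduce
    split_ifs <;> norm_num
  unfold Om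
  refine le_trans ?_ h4
  have h7 : (0 : ℝ) ≤ K * x * ∑ ω ∈ Fintype.piFinset (rng K n x), F ω := by positivity
  calc (K * x ^ 2 : ℝ) * ∑ ω ∈ Fintype.piFinset (rng K n x), F ω
      = x * (K * x * ∑ ω ∈ Fintype.piFinset (rng K n x), F ω) := by ring
    _ ≤ _ := mul_le_mul_of_nonneg_right h5 h7

/-- a nonzero form vanishes with probability at most `1 / x` -/
theorem prob_bad (hK : 1 ≤ K) {x : ℕ} {c : Fin (K + 1) → ℝ} (hc : ∀ p, c p ≠ 0)
    {L : Var (K + 1) n → ℝ} (hL : L ≠ 0) :
    (x : ℝ) * ∑ ω ∈ Om K n x, (if dot L (qv c ω) = 0 then (1 : ℝ) else 0) ≤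
      (Om K n x).card := by
  classical
  obtain ⟨e, he⟩ := exists_coeff hL
  have h1 := resample (rng K n x) e fun ω => if dot L (qv c ω) = 0 then (1 : ℝ) else 0
  have h3 : ∀ ω ∈ Fintype.piFinset (rng K n x), ∑ z ∈ rng K n x e,
      (if dot L (qv c (Function.update ω e z)) = 0 then (1 : ℝ) else 0) ≤ 1 := by
    intro ω _
    rw [sum_boole]
    have h4 : #{z ∈ rng K n x e | dot L (qv c (Function.update ω e z)) = 0} ≤ 1 := by
      rw [card_le_one]
      intro a ha b hb
      rw [mem_filter] at ha hb
      have e0 : ∀ z : ℝ, dot L (qv c (Function.update ω e z)) =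
          dot L (qv c ω) + L e * ((z - ω e) / c e.1) := by
        intro z
        have : qv c (Function.update ω e z) = qv c ω + Pi.single e ((z - ω e) / c e.1) := by
          funext v
          unfold qv
          rw [Pi.add_apply]
          by_cases hv : v = e
          · subst hv
            rw [Function.update_self, Pi.single_eq_same]
            ring
          · rw [Function.update_of_ne hv, Pi.single_eq_of_ne hv, add_zero]
        rw [this, dot_add, dot_single]
      have h5 := ha.2
      have h6 := hb.2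
      rw [e0] at h5 h6
      have h7 : L e * ((a - ω e) / c e.1) = L e * ((b - ω e) / c e.1) := by linarith
      have h8 := mul_left_cancel₀ he h7
      rw [div_left_inj' (hc _)] at h8
      linarith
    exact_mod_cast h4
  have h4 : ((rng K n x e).card : ℝ) * ∑ ω ∈ Fintype.piFinset (rng K n x),
      (if dot L (qv c ω) = 0 then (1 : ℝ) else 0) ≤ (Fintype.piFinset (rng K n x)).card := by
    rw [h1]
    refine (sum_le_sum h3).trans ?_
    rw [sum_const, nsmul_eq_mul, mul_one]
  have h5 : (x : ℝ) ≤ (rng K n x e).card := by exact_mod_cast le_card_rng hK x e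
  have h6 : 0 ≤ ∑ ω ∈ Fintype.piFinset (rng K n x),
      (if dot L (qv c ω) = 0 then (1 : ℝ) else 0) := by
    refine sum_nonneg fun ω _ => ?_
    split_ifs <;> norm_num
  unfold Om
  exact (mul_le_mul_of_nonneg_right h5 h6).trans h4

end Pool.Agent.H692.KS
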