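import Mathlib
import Pool.Agent.H692.KS.Label

/-!
# One round
-/

set_option autoImplicit false

namespace Pool.Agent.H692.KS

open Finset Filter Topology

variable {K n : ℕ}

/-- the variable `e` occurs in the tuple `s` -/
def On (e : Var (K + 1) n) (s : Tup (K + 1) n) : Prop := s e.1 = e.2

open Classical in
/-- the number of ordered pairs of different tuples with a common variable -/
noncomputable def Q (F : Finset (Tup (K + 1) n)) : ℕ :=
  ((F ×ˢ F).filter fun p => p.1 ≠ p.2 ∧ ∃ e, On e p.1 ∧ On e p.2).card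

theorem Q_mono {F F' : Finset (Tup (K + 1) n)} (h : F ⊆ F') : Q F ≤ Q F' := by
  classical
  unfold Q
  exact card_le_card (filter_subset_filter _ (product_subset_product h h))

theorem val_add_smul {k n : ℕ} (c : Fin k → ℝ) (p u : Var k n → ℝ) (ε : ℝ) (s : Tup k n) :
    val c (p + ε • u) s = val c p s + ε * val c u s := by
  rw [← dot_form, ← dot_form, ← dot_form, dot_add_smul]

theorem val_continuous {k n : ℕ} (c : Fin k → ℝ) (s : Tup k n) :
    Continuous fun w : Var k n → ℝ => val c w s := by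
  unfold val
  fun_prop

open Classical in
/-- the number of the tuples of `G` with the variable `e` -/
noncomputable def deg (G : Finset (Tup (K + 1) n)) (e : Var (K + 1) n) : ℕ :=
  (G.filter fun s => On e s).card

/-- few tuples have variables of large degree -/
theorem high_le (G : Finset (Tup (K + 1) n)) (M : ℕ)
    [DecidablePred fun s : Tup (K + 1) n => ∃ e, On e s ∧ M + 1 ≤ deg G e] :
    M * (G.filter fun s => ∃ e, On e s ∧ M + 1 ≤ deg G e).card ≤ Q G := by
  classical
  unfold Q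
  have h1 : ((G ×ˢ G).filter fun p => p.1 ≠ p.2 ∧ ∃ e, On e p.1 ∧ On e p.2).card =
      ∑ s ∈ G, (G.filter fun s' => s ≠ s' ∧ ∃ e, On e s ∧ On e s').card := by
    rw [card_filter, sum_product]
    refine sum_congr rfl fun s _ => ?_
    rw [card_filter]
  rw [h1]
  calc M * (G.filter fun s => ∃ e, On e s ∧ M + 1 ≤ deg G e).card
      = ∑ s ∈ G.filter (fun s => ∃ e, On e s ∧ M + 1 ≤ deg G e), M := by
        rw [sum_const, smul_eq_mul, mul_comm]
    _ ≤ ∑ s ∈ G.filter (fun s => ∃ e, On e s ∧ M + 1 ≤ deg G e),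
        (G.filter fun s' => s ≠ s' ∧ ∃ e, On e s ∧ On e s').card := by
        refine sum_le_sum fun s hs => ?_
        obtain ⟨hsG, e, he, hd⟩ := mem_filter.1 hs
        have h2 : ((G.filter fun s => On e s).erase s).card ≤
            (G.filter fun s' => s ≠ s' ∧ ∃ e, On e s ∧ On e s').card := by
          refine card_le_card fun s' hs' => ?_
          rw [mem_erase, mem_filter] at hs'
          rw [mem_filter]
          exact ⟨hs'.2.1, fun h => hs'.1 h.symm, e, he, hs'.2.2⟩
        refine le_trans ?_ h2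
        have h3 := pred_card_le_card_erase (s := G.filter fun s => On e s) (a := s)
        unfold deg at hd
        omega
    _ ≤ ∑ s ∈ G, (G.filter fun s' => s ≠ s' ∧ ∃ e, On e s ∧ On e s').card :=
        sum_le_sum_of_subset (filter_subset _ _)

/-- what remains after breaking variables -/
theorem remain {m : ℕ} (G : Finset (Tup (K + 1) n)) {M : ℕ} (hM : 0 < M) (I : Finset (Fin m))
    (ed : Fin m → Var (K + 1) n) : ∃ B : Finset (Var (K + 1) n), (∀ i ∈ I, ed i ∈ B) ∧
    ∀ G' : Finset (Tup (K + 1) n), (∀ s, s ∈ G' ↔ s ∈ G ∧ ∀ e ∈ B, ¬ On e s) →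
      (G.card : ℝ) - (Q G : ℝ) / M - M * I.card ≤ G'.card := by
  classical
  set H : Finset (Var (K + 1) n) := univ.filter fun e => M + 1 ≤ deg G e with hH
  refine ⟨H ∪ I.image ed, fun i hi => mem_union_right _ (mem_image_of_mem _ hi), ?_⟩
  intro G' hG'
  have h1 : G ⊆ G' ∪ ((G.filter fun s => ∃ e, On e s ∧ M + 1 ≤ deg G e) ∪
      (I.filter fun i => deg G (ed i) ≤ M).biUnion fun i => G.filter fun s => On (ed i) s) := by
    intro s hs
    rw [mem_union, mem_union]
    by_cases h2 : s ∈ G'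
    · exact Or.inl h2
    · right
      rw [hG'] at h2
      push Not at h2
      obtain ⟨e, he, hes⟩ := h2 hs
      by_cases h3 : M + 1 ≤ deg G e
      · left
        exact mem_filter.2 ⟨hs, e, hes, h3⟩
      · right
        rcases mem_union.1 he with h4 | h4
        · exact absurd (mem_filter.1 h4).2 h3
        · obtain ⟨i, hi, rfl⟩ := mem_image.1 h4
          rw [mem_biUnion]
          exact ⟨i, mem_filter.2 ⟨hi, by omega⟩, mem_filter.2 ⟨hs, hes⟩⟩
  have h2 := card_le_card h1
  have h3 := card_union_le G' ((G.filter fun s => ∃ e, On e s ∧ M + 1 ≤ deg G e) ∪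
      (I.filter fun i => deg G (ed i) ≤ M).biUnion fun i => G.filter fun s => On (ed i) s)
  have h4 := card_union_le (G.filter fun s => ∃ e, On e s ∧ M + 1 ≤ deg G e)
      ((I.filter fun i => deg G (ed i) ≤ M).biUnion fun i => G.filter fun s => On (ed i) s)
  have h5 : ((I.filter fun i => deg G (ed i) ≤ M).biUnion
      fun i => G.filter fun s => On (ed i) s).card ≤ I.card * M := by
    refine card_biUnion_le.trans ?_
    calc ∑ i ∈ I.filter (fun i => deg G (ed i) ≤ M), (G.filter fun s => On (ed i) s).card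
        ≤ ∑ i ∈ I.filter (fun i => deg G (ed i) ≤ M), M :=
          sum_le_sum fun i hi => (mem_filter.1 hi).2
      _ = (I.filter fun i => deg G (ed i) ≤ M).card * M := by rw [sum_const, smul_eq_mul]
      _ ≤ I.card * M := Nat.mul_le_mul_right _ (card_filter_le _ _)
  have h6 := high_le G M
  have hM' : (0 : ℝ) < M := by exact_mod_cast hM
  have h7 : ((G.filter fun s => ∃ e, On e s ∧ M + 1 ≤ deg G e).card : ℝ) ≤ (Q G : ℝ) / M := by
    rw [le_div_iff₀ hM']
    calc ((G.filter fun s => ∃ e, On e s ∧ M + 1 ≤ deg G e).card : ℝ) * M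
        = ((M * (G.filter fun s => ∃ e, On e s ∧ M + 1 ≤ deg G e).card : ℕ) : ℝ) := by
          push_cast; ring
      _ ≤ (Q G : ℝ) := by exact_mod_cast h6
  have h8 : (G.card : ℝ) ≤ G'.card + (((G.filter fun s => ∃ e, On e s ∧ M + 1 ≤ deg G e).card : ℝ)
      + (I.card : ℝ) * M) := by
    have : G.card ≤ G'.card + ((G.filter fun s => ∃ e, On e s ∧ M + 1 ≤ deg G e).card +
        I.card * M) := by omega
    exact_mod_cast this
  linarith

/-- the averages -/
theorem exists_labels (hK : 1 ≤ K) {c : Fin (K + 1) → ℝ} (hc : ∀ p, c p ≠ 0)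
    (F : Finset (Tup (K + 1) n)) {m : ℕ} (L : Fin m → Var (K + 1) n → ℝ) {x : ℕ}
    (hx : 0 < x) {a b : ℝ} (ha : 0 ≤ a) (hb : 0 ≤ b) : ∃ ω : Var (K + 1) n → ℝ,
    ∀ (G : Finset (Tup (K + 1) n)) (I : Finset (Fin m)), (∀ s, s ∈ G ↔ s ∈ F ∧ lab ω s = 0) →
      (∀ i, i ∈ I ↔ L i ≠ 0 ∧ dot (L i) (qv c ω) = 0) →
      (F.card : ℝ) / (K * x) - a * (Q F / (K * x ^ 2)) - b * (m / x) ≤
        (G.card : ℝ) - a * Q G - b * I.card := by
  classical
  have hx' : (0 : ℝ) < x := by exact_mod_cast hx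
  have hK' : (0 : ℝ) < K := by exact_mod_cast hK
  set P := (F ×ˢ F).filter fun p => p.1 ≠ p.2 ∧ ∃ e, On e p.1 ∧ On e p.2 with hP
  set A : Finset (Tup (K + 1) n) → (Var (K + 1) n → ℝ) → ℝ :=
    fun F ω => ∑ s ∈ F, if lab ω s = 0 then (1 : ℝ) else 0 with hA
  set Bq : (Var (K + 1) n → ℝ) → ℝ := fun ω =>
    ∑ p ∈ P, if lab ω p.1 = 0 ∧ lab ω p.2 = 0 then (1 : ℝ) else 0 with hBq
  set Cv : (Var (K + 1) n → ℝ) → ℝ := fun ω =>
    ∑ i ∈ univ.filter (fun i => L i ≠ 0), if dot (L i) (qv c ω) = 0 then (1 : ℝ) else 0 with hCv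
  have h1 : (F.card : ℝ) * (Om K n x).card / (K * x) = ∑ ω ∈ Om K n x, A F ω := by
    rw [hA, sum_comm, div_eq_iff (by positivity), sum_mul]
    have : ∀ s ∈ F, (∑ ω ∈ Om K n x, if lab ω s = 0 then (1 : ℝ) else 0) * (K * x) =
        (Om K n x).card := by
      intro s _
      rw [mul_comm]
      exact prob_tight hK x s
    rw [sum_congr rfl this, sum_const, nsmul_eq_mul]
  have h2 : ∑ ω ∈ Om K n x, Bq ω ≤ (Q F : ℝ) * (Om K n x).card / (K * x ^ 2) := by
    rw [hBq, sum_comm, le_div_iff₀ (by positivity), sum_mul]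
    have : ∀ p ∈ P, (∑ ω ∈ Om K n x, if lab ω p.1 = 0 ∧ lab ω p.2 = 0 then (1 : ℝ) else 0) *
        (K * x ^ 2) ≤ (Om K n x).card := by
      intro p hp
      rw [mul_comm]
      exact prob_pair hK (mem_filter.1 hp).2.1
    refine (sum_le_sum this).trans ?_
    rw [sum_const, nsmul_eq_mul]
    exact le_rfl
  have h3 : ∑ ω ∈ Om K n x, Cv ω ≤ (m : ℝ) * (Om K n x).card / x := by
    rw [hCv, sum_comm, le_div_iff₀ (by positivity), sum_mul]
    have : ∀ i ∈ univ.filter (fun i => L i ≠ 0),
        (∑ ω ∈ Om K n x, if dot (L i) (qv c ω) = 0 then (1 : ℝ) else 0) * x ≤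
          (Om K n x).card := by
      intro i hi
      rw [mul_comm]
      exact prob_bad hK hc (mem_filter.1 hi).2
    refine (sum_le_sum this).trans ?_
    rw [sum_const, nsmul_eq_mul]
    have h4 : ((univ.filter (fun i => L i ≠ 0)).card : ℝ) ≤ m := by
      have := card_le_univ (univ.filter (fun i => L i ≠ 0))
      rw [Fintype.card_fin] at this
      exact_mod_cast this
    exact mul_le_mul_of_nonneg_right h4 (by positivity)
  obtain ⟨ω, hω, h4⟩ : ∃ ω ∈ Om K n x, (F.card : ℝ) / (K * x) - a * (Q F / (K * x ^ 2)) -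
      b * (m / x) ≤ A F ω - a * Bq ω - b * Cv ω := by
    refine exists_le_of_sum_le (Om_nonempty hK hx) ?_
    rw [sum_const, nsmul_eq_mul, sum_sub_distrib, sum_sub_distrib, ← mul_sum, ← mul_sum, ← h1]
    have h5 := mul_le_mul_of_nonneg_left h2 ha
    have h6 := mul_le_mul_of_nonneg_left h3 hb
    have e1 : ((Om K n x).card : ℝ) * ((F.card : ℝ) / (K * x) - a * (Q F / (K * x ^ 2)) -
        b * (m / x)) = (F.card : ℝ) * (Om K n x).card / (K * x) -
        a * ((Q F : ℝ) * (Om K n x).card / (K * x ^ 2)) -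
        b * ((m : ℝ) * (Om K n x).card / x) := by ring
    rw [e1]
    linarith
  refine ⟨ω, fun G I hG hI => h4.trans (le_of_eq ?_)⟩
  have e1 : A F ω = G.card := by
    rw [hA]
    beta_reduce
    rw [sum_boole]
    congr 2
    ext s
    rw [mem_filter, hG]
  have e2 : Bq ω = Q G := by
    rw [hBq]
    beta_reduce
    rw [sum_boole]
    unfold Q
    congr 2
    ext p
    rw [hP, mem_filter, mem_filter, mem_filter, mem_product, mem_product, hG, hG]
    tauto
  have e3 : Cv ω = I.card := by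
    rw [hCv]
    beta_reduce
    rw [sum_boole, filter_filter]
    congr 2
    ext i
    rw [mem_filter, hI]
    simp
  rw [e1, e2, e3]

/-- breaking variables -/
theorem break_vars {c : Fin (K + 1) → ℝ} (hc : ∀ p, c p ≠ 0) {m : ℕ}
    (L : Fin m → Var (K + 1) n → ℝ) (ω : Var (K + 1) n → ℝ)
    (B : Finset (Var (K + 1) n)) (hB : ∀ i, L i ≠ 0 → dot (L i) (qv c ω) = 0 →
      ∃ e ∈ B, L i e ≠ 0) :
    ∃ v : Var (K + 1) n → ℝ, (∀ i, L i ≠ 0 → dot (L i) v ≠ 0) ∧
      ∀ s, val c v s = 0 ↔ lab ω s = 0 ∧ ∀ e ∈ B, ¬ On e s := by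
  classical
  -- the forms which have to be different from zero, restricted to `B`
  set L' : Fin m ⊕ Tup (K + 1) n → Var (K + 1) n → ℝ := fun i e =>
    if e ∈ B then (Sum.elim L (form c) i) e else 0 with hL'
  obtain ⟨y, -, hyL⟩ := exists_generic L' isOpen_univ (Set.mem_univ (0 : Var (K + 1) n → ℝ))
  set z : Var (K + 1) n → ℝ := fun e => if e ∈ B then y e else 0 with hz
  have hdot : ∀ i, dot (Sum.elim L (form c) i) z = dot (L' i) y := by
    intro i
    unfold dot
    refine sum_congr rfl fun e _ => ?_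
    simp only [hL', hz]
    split_ifs
    · rfl
    · simp
  have h1 : ∀ᶠ ε in 𝓝[>] (0 : ℝ), ∀ i, L i ≠ 0 → dot (L i) (qv c ω + ε • z) ≠ 0 := by
    refine eventually_all.2 fun i => ?_
    by_cases hi : L i ≠ 0
    · have : dot (L i) (qv c ω) ≠ 0 ∨ dot (L i) z ≠ 0 := by
        by_cases hb : dot (L i) (qv c ω) = 0
        · right
          obtain ⟨e, he, hne⟩ := hB i hi hb
          have h2 := hdot (Sum.inl i)
          rw [Sum.elim_inl] at h2
          rw [h2]
          refine hyL (Sum.inl i) fun h => hne ?_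
          have h3 := congrFun h e
          simp only [hL', Sum.elim_inl] at h3
          rwa [if_pos he] at h3
        · exact Or.inl hb
      filter_upwards [eventually_dot_ne (L i) (qv c ω) z this] with ε h _
      exact h
    · exact Eventually.of_forall fun ε h => absurd h hi
  have h2 : ∀ᶠ ε in 𝓝[>] (0 : ℝ), ∀ s : Tup (K + 1) n, lab ω s ≠ 0 →
      val c (qv c ω + ε • z) s ≠ 0 := by
    refine eventually_all.2 fun s => ?_
    by_cases hs : lab ω s = 0
    · exact Eventually.of_forall fun ε h => absurd hs h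
    · have h3 : dot (form c s) (qv c ω) ≠ 0 := by rwa [dot_form, val_qv hc]
      filter_upwards [eventually_dot_ne (form c s) (qv c ω) z (Or.inl h3)] with ε h _
      rwa [dot_form] at h
  obtain ⟨ε, ⟨h3, h4⟩, hε⟩ := ((h1.and h2).and self_mem_nhdsWithin).exists
  have hε' : 0 < ε := hε
  refine ⟨qv c ω + ε • z, h3, ?_⟩
  intro s
  by_cases hs : lab ω s = 0
  · rw [val_add_smul, val_qv hc, hs, zero_add, mul_eq_zero, or_iff_right hε'.ne',
      and_iff_right rfl]
    have h5 := hdot (Sum.inr s)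
    rw [Sum.elim_inr, dot_form] at h5
    rw [h5]
    constructor
    · intro h6 e he h7
      refine hyL (Sum.inr s) (fun h8 => ?_) h6
      have h9 := congrFun h8 e
      simp only [hL', Sum.elim_inr] at h9
      rw [if_pos he] at h9
      unfold form at h9
      unfold On at h7
      rw [if_pos h7] at h9
      exact hc _ h9
    · intro h6
      have h7 : L' (Sum.inr s) = 0 := by
        funext e
        simp only [hL', Sum.elim_inr]
        split_ifs with he
        · unfold form
          rw [if_neg (show ¬ s e.1 = e.2 from h6 e he)]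
          rfl
        · rfl
      rw [h7]
      unfold dot
      simp
  · constructor
    · intro h
      exact absurd h (h4 s hs)
    · intro h
      exact absurd h.1 hs

/-- one round -/
theorem stepA (hK : 1 ≤ K) {c : Fin (K + 1) → ℝ} (hc : ∀ p, c p ≠ 0)
    (F : Finset (Tup (K + 1) n)) {m : ℕ} (L : Fin m → Var (K + 1) n → ℝ) {x : ℕ} (hx : 0 < x)
    {ρ : ℝ} (hρ : 0 < ρ) (hQ : (Q F : ℝ) ≤ ρ * F.card)
    (hT : 16 * K * (m : ℝ) ≤ F.card) (hT' : 128 * K * (m : ℝ) * ρ ≤ x * F.card) :
    ∃ v : Var (K + 1) n → ℝ, (∀ i, L i ≠ 0 → dot (L i) v ≠ 0) ∧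
      ∀ F' : Finset (Tup (K + 1) n), (∀ s, s ∈ F' ↔ s ∈ F ∧ val c v s = 0) →
        (F.card : ℝ) / (2 * K * x) ≤ F'.card ∧ (Q F' : ℝ) ≤ 4 * ρ / x * F'.card := by
  classical
  have hx' : (0 : ℝ) < x := by exact_mod_cast hx
  have hx1 : (1 : ℝ) ≤ x := by exact_mod_cast hx
  have hK' : (0 : ℝ) < K := by exact_mod_cast hK
  set M : ℕ := ⌈8 * ρ / x⌉₊ with hM
  have hM1 : 8 * ρ / x ≤ (M : ℝ) := Nat.le_ceil _
  have hM2 : (M : ℝ) < 8 * ρ / x + 1 := Nat.ceil_lt_add_one (by positivity)
  have hMpos : (0 : ℝ) < M := lt_of_lt_of_le (by positivity) hM1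
  have hM0 : 0 < M := by exact_mod_cast hMpos
  set θ : ℝ := x / (4 * ρ) with hθ
  have hθ0 : 0 < θ := by positivity
  obtain ⟨ω, hω⟩ := exists_labels hK hc F L hx (a := 1 / M + θ) (b := M) (by positivity)
    (by positivity)
  set G := F.filter fun s => lab ω s = 0 with hG
  set I := univ.filter fun i => L i ≠ 0 ∧ dot (L i) (qv c ω) = 0 with hI
  have h1 := hω G I (fun s => by rw [hG, mem_filter]) (fun i => by rw [hI, mem_filter]; simp)
  have hed : ∀ i, ∃ e, i ∈ I → L i e ≠ 0 := by
    intro i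
    by_cases h : i ∈ I
    · obtain ⟨e, he⟩ := exists_coeff (mem_filter.1 h).2.1
      exact ⟨e, fun _ => he⟩
    · by_cases hn : Nonempty (Var (K + 1) n)
      · obtain ⟨e⟩ := hn
        exact ⟨e, fun h' => absurd h' h⟩
      · exfalso
        have hFe : F = ∅ := by
          rw [eq_empty_iff_forall_notMem]
          intro s _
          exact hn ⟨(0, s 0)⟩
        rw [hFe, card_empty] at hT
        have hm : 0 < m := Fin.pos i
        have hm' : (0 : ℝ) < m := by exact_mod_cast hm
        have : (0 : ℝ) < 16 * K * (m : ℝ) := by positivity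
        push_cast at hT
        linarith
  choose ed hed using hed
  obtain ⟨B, hB1, hB2⟩ := remain G hM0 I ed
  obtain ⟨v, hv2, hv3⟩ := break_vars hc L ω B (by
    intro i hi h0
    have : i ∈ I := by rw [hI, mem_filter]; exact ⟨mem_univ _, hi, h0⟩
    exact ⟨ed i, hB1 i this, hed i this⟩)
  refine ⟨v, hv2, fun F' hF' => ?_⟩
  have hF'G : ∀ s, s ∈ F' ↔ s ∈ G ∧ ∀ e ∈ B, ¬ On e s := by
    intro s
    rw [hF', hv3, hG, mem_filter]
    tauto
  have h2 := hB2 F' hF'G
  have h3 : Q F' ≤ Q G := Q_mono fun s hs => ((hF'G s).1 hs).1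
  have h3' : (Q F' : ℝ) ≤ Q G := by exact_mod_cast h3
  have hN : (0 : ℝ) ≤ F.card := by positivity
  have hm0 : (0 : ℝ) ≤ m := by positivity
  -- the main estimate
  have h4 : (F.card : ℝ) / (2 * K * x) ≤ (F.card : ℝ) / (K * x) -
      (1 / M + θ) * (Q F / (K * x ^ 2)) - M * (m / x) := by
    have h5 : 1 / (M : ℝ) ≤ x / (8 * ρ) := by
      rw [div_le_div_iff₀ hMpos (by positivity), one_mul]
      rw [div_le_iff₀ hx'] at hM1
      linarith
    have h6 : (1 / (M : ℝ) + θ) * (Q F / (K * x ^ 2)) ≤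
        (x / (8 * ρ) + x / (4 * ρ)) * (ρ * F.card / (K * x ^ 2)) := by
      have h7 : (Q F : ℝ) / (K * x ^ 2) ≤ ρ * F.card / (K * x ^ 2) :=
        div_le_div_of_nonneg_right hQ (by positivity)
      exact mul_le_mul (by rw [hθ]; linarith) h7 (by positivity) (by positivity)
    have h8 : (x / (8 * ρ) + x / (4 * ρ)) * (ρ * F.card / (K * x ^ 2)) =
        3 / 8 * ((F.card : ℝ) / (K * x)) := by
      field_simp
      ring
    have h9 : (M : ℝ) * (m / x) ≤ 1 / 8 * ((F.card : ℝ) / (K * x)) := by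
      have h11 := mul_le_mul_of_nonneg_right hM2.le hm0
      have h12 : (8 * ρ / x + 1) * (m : ℝ) = 8 * ρ * m / x + m := by
        field_simp
      rw [h12] at h11
      have h13 : 8 * ρ * m / x ≤ F.card / (16 * K) := by
        rw [div_le_div_iff₀ hx' (by positivity)]
        linarith
      have h14 : (m : ℝ) ≤ F.card / (16 * K) := by
        rw [le_div_iff₀ (by positivity)]
        linarith
      have h15 : (M : ℝ) * m ≤ F.card / (8 * K) := by
        have e1 : (F.card : ℝ) / (8 * K) = F.card / (16 * K) + F.card / (16 * K) := by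
          field_simp
          ring
        rw [e1]
        linarith
      calc (M : ℝ) * (m / x) = M * m / x := by ring
        _ ≤ F.card / (8 * K) / x := div_le_div_of_nonneg_right h15 hx'.le
        _ = 1 / 8 * ((F.card : ℝ) / (K * x)) := by
          field_simp
    have e2 : (F.card : ℝ) / (2 * K * x) = 1 / 2 * ((F.card : ℝ) / (K * x)) := by
      field_simp
    rw [e2]
    have e0 : 0 ≤ (F.card : ℝ) / (K * x) := by positivity
    linarith
  have h5 : (F.card : ℝ) / (2 * K * x) ≤ F'.card - θ * Q F' := by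
    have h6 : θ * (Q F' : ℝ) ≤ θ * Q G := mul_le_mul_of_nonneg_left h3' hθ0.le
    have e1 : (1 / (M : ℝ) + θ) * (Q G : ℝ) = (Q G : ℝ) / M + θ * Q G := by ring
    linarith
  have h0 : 0 ≤ (F.card : ℝ) / (2 * K * x) := by positivity
  have hq0 : (0 : ℝ) ≤ Q F' := by positivity
  have hθq := mul_nonneg hθ0.le hq0
  refine ⟨by linarith, ?_⟩
  have h6 : θ * (Q F' : ℝ) ≤ F'.card := by linarith
  have e1 : (Q F' : ℝ) = 4 * ρ / x * (θ * Q F') := by
    rw [hθ]
    field_simp
  rw [e1]
  exact mul_le_mul_of_nonneg_left h6 (by positivity)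

end Pool.Agent.H692.KS
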