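import Mathlib
import Pool.Agent.H692.KS.Step

/-!
# The induction over the rounds
-/

set_option autoImplicit false

namespace Pool.Agent.H692.KS

open Finset Filter Topology

variable {K n : ℕ}

theorem form_ne {c : Fin (K + 1) → ℝ} (hc : ∀ p, c p ≠ 0) (s : Tup (K + 1) n) : form c s ≠ 0 := by
  intro h
  have := congrFun h (0, s 0)
  unfold form at this
  simp at this
  exact hc _ this

/-- the forms of different tuples are not proportional -/
theorem form_inj {c : Fin (K + 1) → ℝ} (hc : ∀ p, c p ≠ 0) {s s' : Tup (K + 1) n} {a : ℝ}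
    (h : form c s = a • form c s') : s = s' := by
  funext p
  by_contra hne
  have h1 := congrFun h (p, s p)
  unfold form at h1
  rw [Pi.smul_apply, smul_eq_mul] at h1
  simp only [if_pos] at h1
  rw [if_neg (fun h => hne h.symm), mul_zero] at h1
  exact hc _ h1

/-- the forms `E e` are not zero and not multiples of the forms of tuples -/
def Indep {κ : Type} (c : Fin (K + 1) → ℝ) (E : κ → Var (K + 1) n → ℝ) : Prop :=
  ∀ e, E e ≠ 0 ∧ ∀ s, ∀ a : ℝ, E e ≠ a • form c s

/-- the last round -/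
theorem stepB {c : Fin (K + 1) → ℝ} (hc : ∀ p, c p ≠ 0) {κ : Type} [Finite κ]
    {E : κ → Var (K + 1) n → ℝ} (hE : Indep c E) (F : Finset (Tup (K + 1) n)) {m : ℕ}
    (L : Fin m → Var (K + 1) n → ℝ) (hF : m < F.card) :
    ∃ f ∈ F, ∃ v : Var (K + 1) n → ℝ, val c v f = 0 ∧ (∀ s, s ≠ f → val c v s ≠ 0) ∧
      (∀ i, L i ≠ 0 → dot (L i) v ≠ 0) ∧ ∀ e, dot (E e) v ≠ 0 := by
  classical
  -- a tuple which is not tested
  obtain ⟨f, hf, hfL⟩ : ∃ f ∈ F, ∀ i, ∀ a : ℝ, a ≠ 0 → L i ≠ a • form c f := by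
    by_contra! hcon
    obtain ⟨f₀, hf₀⟩ := card_pos.1 (by omega : 0 < F.card)
    obtain ⟨i₀, -⟩ := hcon f₀ hf₀
    have : Nonempty (Fin m) := ⟨i₀⟩
    choose! g a ha0 hga using hcon
    have h1 : F.card ≤ (univ : Finset (Fin m)).card := by
      refine card_le_card_of_injOn g (fun _ _ => mem_coe.2 (mem_univ _)) ?_
      intro f hf f' hf' hff
      have h2 := hga f hf
      have h3 := hga f' hf'
      have hff' : g f = g f' := hff
      rw [hff', h3] at h2
      have h4 : form c f' = ((a f')⁻¹ * a f) • form c f := by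
        rw [mul_smul, ← h2, smul_smul, inv_mul_cancel₀ (ha0 f' hf'), one_smul]
      exact (form_inj hc h4).symm
    rw [card_univ, Fintype.card_fin] at h1
    omega
  refine ⟨f, hf, ?_⟩
  -- projection to the hyperplane of `f`
  set e₀ : Var (K + 1) n := (0, f 0) with he₀
  have hfe : form c f e₀ = c 0 := by
    unfold form
    simp [he₀]
  set π : (Var (K + 1) n → ℝ) → Var (K + 1) n → ℝ := fun y =>
    y - (val c y f / c 0) • Pi.single e₀ 1 with hπ
  have hdotπ : ∀ (L : Var (K + 1) n → ℝ) (y : Var (K + 1) n → ℝ),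
      dot L (π y) = dot (L - (L e₀ / c 0) • form c f) y := by
    intro L y
    have h1 : π y = y + (-(val c y f / c 0)) • Pi.single e₀ 1 := by
      rw [hπ]
      simp only
      rw [neg_smul, sub_eq_add_neg]
    have h2 : dot (L - (L e₀ / c 0) • form c f) y =
        dot L y - (L e₀ / c 0) * val c y f := by
      rw [← dot_form]
      unfold dot
      rw [mul_sum, ← sum_sub_distrib]
      exact sum_congr rfl fun e _ => by
        rw [Pi.sub_apply, Pi.smul_apply, smul_eq_mul]; ring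
    rw [h1, dot_add_smul, dot_single, h2]
    have := hc 0
    field_simp
    ring
  set L' : (Fin m ⊕ Tup (K + 1) n) ⊕ κ → Var (K + 1) n → ℝ := fun i =>
    Sum.elim (Sum.elim L (form c)) E i -
      ((Sum.elim (Sum.elim L (form c)) E i) e₀ / c 0) • form c f with hL'
  obtain ⟨y, -, hyL⟩ := exists_generic L' isOpen_univ (Set.mem_univ (0 : Var (K + 1) n → ℝ))
  refine ⟨π y, ?_, ?_, ?_, ?_⟩
  · rw [← dot_form, hdotπ, hfe, div_self (hc 0), one_smul, sub_self]
    unfold dot
    simp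
  · intro s hs
    have h1 := hdotπ (form c s) y
    rw [← dot_form, h1]
    refine hyL (Sum.inl (Sum.inr s)) fun h0 => hs ?_
    simp only [hL', Sum.elim_inr, Sum.elim_inl] at h0
    exact form_inj hc (sub_eq_zero.1 h0)
  · intro i hi
    rw [hdotπ]
    refine hyL (Sum.inl (Sum.inl i)) fun h0 => ?_
    simp only [hL', Sum.elim_inl] at h0
    have h1 := sub_eq_zero.1 h0
    by_cases h2 : L i e₀ / c 0 = 0
    · rw [h2, zero_smul] at h1
      exact hi h1
    · exact hfL i _ h2 h1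
  · intro e
    rw [hdotπ]
    refine hyL (Sum.inr e) fun h0 => ?_
    simp only [hL', Sum.elim_inr] at h0
    exact (hE e).2 f _ (sub_eq_zero.1 h0)

/-! ### states -/

/-- What is known about the rest `R` of the tree: it is reached from all vectors in `U`; `r` rounds
and `T` tests are left. -/
structure St {κ : Type} (c : Fin (K + 1) → ℝ) (E : κ → Var (K + 1) n → ℝ)
    (R : LT (Var (K + 1) n)) (T r : ℕ) (U : Set (Var (K + 1) n → ℝ)) : Prop where
  isOpen : IsOpen U
  no : ∀ u ∈ U, (∀ s, val c u s ≠ 0) → (∀ e, dot (E e) u ≠ 0) → R.Gen u →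
    R.run u = false ∧ R.rounds u ≤ r ∧ R.tests u ≤ T
  yes : ∀ u ∈ U, ∀ τ, val c u τ = 0 → (∀ s, s ≠ τ → val c u s ≠ 0) → (∀ e, dot (E e) u ≠ 0) →
    R.Gen u → R.run u = true

variable {κ : Type} [Finite κ] {E : κ → Var (K + 1) n → ℝ}

theorem St.exists_no {c : Fin (K + 1) → ℝ} (hc : ∀ p, c p ≠ 0) (hE : Indep c E)
    {R : LT (Var (K + 1) n)}
    {T r : ℕ} {U : Set (Var (K + 1) n → ℝ)} (h : St c E R T r U) {u : Var (K + 1) n → ℝ}
    (hu : u ∈ U) : ∃ u' ∈ U, (∀ s, val c u' s ≠ 0) ∧ (∀ e, dot (E e) u' ≠ 0) ∧ R.Gen u' := by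
  obtain ⟨v, hv, h1⟩ := exists_generic (Sum.elim (form c) E) h.isOpen hu
  have hV : IsOpen {y : Var (K + 1) n → ℝ | ∀ s, val c y s ≠ 0} := by
    have : {y : Var (K + 1) n → ℝ | ∀ s, val c y s ≠ 0} = ⋂ s, {y | val c y s ≠ 0} := by
      ext y
      simp
    rw [this]
    exact isOpen_iInter_of_finite fun s => isOpen_ne_fun (val_continuous c s) continuous_const
  have hW : IsOpen {y : Var (K + 1) n → ℝ | ∀ e, dot (E e) y ≠ 0} := by
    have : {y : Var (K + 1) n → ℝ | ∀ e, dot (E e) y ≠ 0} = ⋂ e, {y | dot (E e) y ≠ 0} := by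
      ext y
      simp
    rw [this]
    exact isOpen_iInter_of_finite fun e => isOpen_ne_fun (dot_continuous (E e)) continuous_const
  obtain ⟨u', hu', h4⟩ := exists_gen R (h.isOpen.inter (hV.inter hW))
    ⟨v, hv, fun s => by rw [← dot_form]; exact h1 (Sum.inl s) (form_ne hc s),
      fun e => by
        have h2 := h1 (Sum.inr e) (hE e).1
        exact h2⟩
  exact ⟨u', hu'.1, hu'.2.1, hu'.2.2, h4⟩

theorem St.bound {c : Fin (K + 1) → ℝ} (hc : ∀ p, c p ≠ 0) (hE : Indep c E) {m : ℕ}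
    {L : Fin m → Var (K + 1) n → ℝ} {σ : Fin m → SignType}
    {next : (Fin m → SignType) → LT (Var (K + 1) n)} {T r : ℕ} {U : Set (Var (K + 1) n → ℝ)}
    (h : St c E (.round m L σ next) T r U) {u : Var (K + 1) n → ℝ} (hu : u ∈ U) :
    1 ≤ r ∧ m ≤ T := by
  obtain ⟨u', hu', h1, h1', h2⟩ := h.exists_no hc hE hu
  have h3 := h.no u' hu' h1 h1' h2
  unfold LT.rounds LT.tests at h3
  exact ⟨by omega, by omega⟩

/-- a leaf is wrong somewhere -/
theorem St.leaf {c : Fin (K + 1) → ℝ} (hc : ∀ p, c p ≠ 0) (hE : Indep c E) {b : Bool} {T r : ℕ}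
    {U : Set (Var (K + 1) n → ℝ)} (h : St c E (.leaf b) T r U) {u : Var (K + 1) n → ℝ}
    (hu : u ∈ U) {f : Tup (K + 1) n} (hf : val c u f = 0) : False := by
  obtain ⟨u', hu', h1, h1', h2⟩ := h.exists_no hc hE hu
  have h3 := (h.no u' hu' h1 h1' h2).1
  obtain ⟨f', hf', v, hv0, hvs, -, hvE⟩ := stepB (m := 0) hc hE {f} (fun _ => 0) (by simp)
  rw [mem_singleton] at hf'
  subst hf'
  have h4 : ∀ᶠ ε in 𝓝[>] (0 : ℝ), u + ε • v ∈ U :=
    (tendsto_line u _).eventually (h.isOpen.mem_nhds hu)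
  have h5 : ∀ᶠ ε in 𝓝[>] (0 : ℝ), ∀ s, s ≠ f' → val c (u + ε • v) s ≠ 0 := by
    refine eventually_all.2 fun s => ?_
    by_cases hs : s = f'
    · exact Eventually.of_forall fun ε h => absurd hs h
    · filter_upwards [eventually_dot_ne (form c s) u v (Or.inr (by
        rw [dot_form]; exact hvs s hs))] with ε h _
      rwa [dot_form] at h
  have h5' : ∀ᶠ ε in 𝓝[>] (0 : ℝ), ∀ e, dot (E e) (u + ε • v) ≠ 0 :=
    eventually_all.2 fun e => eventually_dot_ne (E e) u v (Or.inr (hvE e))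
  obtain ⟨ε, ⟨h6, h7⟩, h7'⟩ := ((h4.and h5).and h5').exists
  have h8 := h.yes (u + ε • v) h6 f' (by rw [val_add_smul, hf, hv0]; ring) h7 h7' trivial
  unfold LT.run at h3 h8
  rw [h3] at h8
  exact Bool.noConfusion h8

/-- one round -/
theorem St.step {c : Fin (K + 1) → ℝ} {m : ℕ}
    {L : Fin m → Var (K + 1) n → ℝ} {σ : Fin m → SignType}
    {next : (Fin m → SignType) → LT (Var (K + 1) n)} {T r : ℕ} {U : Set (Var (K + 1) n → ℝ)}
    (h : St c E (.round m L σ next) T (r + 1) U) {u : Var (K + 1) n → ℝ} (hu : u ∈ U)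
    {v : Var (K + 1) n → ℝ} (hv : ∀ i, L i ≠ 0 → dot (L i) v ≠ 0) :
    ∃ (a : Fin m → SignType) (U' : Set (Var (K + 1) n → ℝ)) (u' : Var (K + 1) n → ℝ),
      St c E (next a) T r U' ∧ u' ∈ U' ∧
      (∀ s, val c u s = 0 → val c v s = 0 → val c u' s = 0) := by
  have h1 : ∀ᶠ ε in 𝓝[>] (0 : ℝ), u + ε • v ∈ U :=
    (tendsto_line u _).eventually (h.isOpen.mem_nhds hu)
  have h2 : ∀ᶠ ε in 𝓝[>] (0 : ℝ), ∀ i, L i ≠ 0 → dot (L i) (u + ε • v) ≠ 0 := by
    refine eventually_all.2 fun i => ?_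
    by_cases hi : L i ≠ 0
    · filter_upwards [eventually_dot_ne (L i) u v (Or.inr (hv i hi))] with ε h _
      exact h
    · exact Eventually.of_forall fun ε h => absurd h hi
  obtain ⟨ε, h3, h4⟩ := (h1.and h2).exists
  set u' := u + ε • v with hu'
  have hans : ∀ w ∈ cell L u', ans L σ w = ans L σ u' := fun w hw => ans_cell hw
  refine ⟨ans L σ u', U ∩ cell L u', u', ⟨h.isOpen.inter (cell_open L u'), ?_, ?_⟩,
    ⟨h3, mem_cell h4⟩, ?_⟩
  · intro w hw hw0 hwE hG
    have h7 : (LT.round m L σ next).Gen w :=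
      ⟨ne_of_cell hw.2, by rw [hans w hw.2]; exact hG⟩
    have h8 := h.no w hw.1 hw0 hwE h7
    unfold LT.run LT.rounds LT.tests at h8
    rw [hans w hw.2] at h8
    exact ⟨h8.1, by omega, by omega⟩
  · intro w hw τ hwτ hw0 hwE hG
    have h7 : (LT.round m L σ next).Gen w :=
      ⟨ne_of_cell hw.2, by rw [hans w hw.2]; exact hG⟩
    have h8 := h.yes w hw.1 τ hwτ hw0 hwE h7
    unfold LT.run at h8
    rw [hans w hw.2] at h8
    exact h8
  · intro s hs1 hs2
    rw [hu', val_add_smul, hs1, hs2]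
    ring

/-! ### the induction -/

/-- the numerical conditions -/
def Cond (T K x : ℕ) : ℕ → ℝ → ℝ → Prop
  | 0, N, _ => 0 < N
  | 1, N, _ => (T : ℝ) < N
  | k + 2, N, ρ => 16 * K * (T : ℝ) ≤ N ∧ 128 * K * (T : ℝ) * ρ ≤ x * N ∧
      Cond T K x (k + 1) (N / (2 * K * x)) (4 * ρ / x)

theorem Cond.pos {T K x : ℕ} (hx : 0 < x) (hK : 1 ≤ K) :
    ∀ {k : ℕ} {N ρ : ℝ}, Cond T K x k N ρ → 0 < N
  | 0, _, _, h => h
  | 1, N, _, h => lt_of_le_of_lt (Nat.cast_nonneg T) h
  | k + 2, N, ρ, h => by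
    have hx' : (0 : ℝ) < x := by exact_mod_cast hx
    have hK' : (0 : ℝ) < K := by exact_mod_cast hK
    have h1 := Cond.pos hx hK h.2.2
    by_contra hc
    push Not at hc
    have h2 : N / (2 * K * x) ≤ 0 := div_nonpos_of_nonpos_of_nonneg hc (by positivity)
    linarith

theorem main (hK : 1 ≤ K) {c : Fin (K + 1) → ℝ} (hc : ∀ p, c p ≠ 0) (hE : Indep c E)
    {T x : ℕ} (hx : 0 < x) :
    ∀ (r : ℕ) (R : LT (Var (K + 1) n)) (U : Set (Var (K + 1) n → ℝ)) (u : Var (K + 1) n → ℝ)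
    (F : Finset (Tup (K + 1) n)) (N ρ : ℝ), St c E R T r U → u ∈ U →
    (∀ s ∈ F, val c u s = 0) → 0 < ρ → Cond T K x r N ρ →
    N ≤ F.card → (Q F : ℝ) ≤ ρ * F.card → False := by
  classical
  intro r
  induction r with
  | zero =>
    intro R U u F N ρ h hu hF hρ hC hN hQ
    have hFpos : (0 : ℝ) < F.card := lt_of_lt_of_le (Cond.pos hx hK hC) hN
    obtain ⟨f, hf⟩ := card_pos.1 (by exact_mod_cast hFpos : 0 < F.card)
    cases R with
    | leaf b => exact h.leaf hc hE hu (hF f hf)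
    | round m L σ next =>
      have := (h.bound hc hE hu).1
      omega
  | succ r ih =>
    intro R U u F N ρ h hu hF hρ hC hN hQ
    have hFpos : (0 : ℝ) < F.card := lt_of_lt_of_le (Cond.pos hx hK hC) hN
    cases R with
    | leaf b =>
      obtain ⟨f, hf⟩ := card_pos.1 (by exact_mod_cast hFpos : 0 < F.card)
      exact h.leaf hc hE hu (hF f hf)
    | round m L σ next =>
      have hm := (h.bound hc hE hu).2
      have hm' : (m : ℝ) ≤ T := by exact_mod_cast hm
      cases r with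
      | zero =>
        have hC' : (T : ℝ) < N := hC
        have h1 : (m : ℝ) < F.card := by linarith
        obtain ⟨f, hf, v, hv0, hvs, hvL, -⟩ := stepB hc hE F L (by exact_mod_cast h1)
        obtain ⟨a, U', u', h2, h3, h5⟩ := h.step hu hvL
        refine ih (next a) U' u' {f} 1 1 h2 h3 ?_ one_pos one_pos (by simp) ?_
        · intro s hs
          rw [mem_singleton] at hs
          subst hs
          exact h5 s (hF s hf) hv0
        · have : Q ({f} : Finset (Tup (K + 1) n)) = 0 := by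
            unfold Q
            rw [card_eq_zero, filter_eq_empty_iff]
            intro p hp
            rw [mem_product, mem_singleton, mem_singleton] at hp
            rw [hp.1, hp.2]
            simp
          rw [this]
          simp
      | succ k =>
        obtain ⟨hC1, hC2, hC3⟩ := hC
        have hx' : (0 : ℝ) < x := by exact_mod_cast hx
        have hK' : (0 : ℝ) < K := by exact_mod_cast hK
        obtain ⟨v, hvL, hF'⟩ := stepA hK hc F L hx hρ hQ
          (le_trans (mul_le_mul_of_nonneg_left hm' (by positivity)) (hC1.trans hN)) (by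
          refine le_trans ?_ (hC2.trans ?_)
          · exact mul_le_mul_of_nonneg_right (mul_le_mul_of_nonneg_left hm' (by positivity)) hρ.le
          · exact mul_le_mul_of_nonneg_left hN (by positivity))
        obtain ⟨a, U', u', h2, h3, h5⟩ := h.step hu hvL
        set F' := F.filter fun s => val c v s = 0 with hF'def
        obtain ⟨h6, h7⟩ := hF' F' (fun s => by rw [hF'def, mem_filter])
        refine ih (next a) U' u' F' (N / (2 * K * x)) (4 * ρ / x) h2 h3 ?_ (by positivity) hC3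
          (le_trans (div_le_div_of_nonneg_right hN (by positivity)) h6) h7
        intro s hs
        rw [hF'def, mem_filter] at hs
        exact h5 s (hF s hs.1) hs.2

/-! ### numbers -/

theorem cond_of {T K x : ℕ} (hK : 1 ≤ K) (hx : 0 < x) : ∀ (j : ℕ) (N ρ : ℝ), 0 ≤ N → 0 < ρ →
    16 * (T : ℝ) * ρ * (8 * K) ^ j ≤ x * N → 8 * (T : ℝ) * (2 * K * x) ^ j ≤ N →
    (T : ℝ) * (2 * K * x) ^ j < N → Cond T K x (j + 1) N ρ := by
  have hx' : (0 : ℝ) < x := by exact_mod_cast hx
  have hK' : (0 : ℝ) < K := by exact_mod_cast hK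
  have hx1 : (1 : ℝ) ≤ x := by exact_mod_cast hx
  have hK1 : (1 : ℝ) ≤ K := by exact_mod_cast hK
  have hKx : (1 : ℝ) ≤ K * x := by nlinarith
  intro j
  induction j with
  | zero =>
    intro N ρ _ _ _ _ h3
    show (T : ℝ) < N
    simpa using h3
  | succ j ih =>
    intro N ρ hN hρ h1 h2 h3
    have hT0 : (0 : ℝ) ≤ T := Nat.cast_nonneg T
    have h8 : (1 : ℝ) ≤ (8 * K : ℝ) ^ j := one_le_pow₀ (by linarith)
    have h4x : (1 : ℝ) ≤ (2 * K * x : ℝ) ^ j := one_le_pow₀ (by nlinarith)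
    refine ⟨?_, ?_, ih (N / (2 * K * x)) (4 * ρ / x) (by positivity) (by positivity) ?_ ?_ ?_⟩
    · refine le_trans ?_ h2
      rw [pow_succ]
      have h4 : (2 * K : ℝ) ≤ (2 * K * x : ℝ) ^ j * (2 * K * x) := by
        calc (2 * K : ℝ) = 1 * (2 * K * 1) := by ring
          _ ≤ (2 * K * x : ℝ) ^ j * (2 * K * x) := by
            refine mul_le_mul h4x ?_ (by positivity) (by positivity)
            exact mul_le_mul_of_nonneg_left hx1 (by positivity)
      calc 16 * K * (T : ℝ) = 8 * T * (2 * K) := by ring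
        _ ≤ 8 * T * ((2 * K * x : ℝ) ^ j * (2 * K * x)) := mul_le_mul_of_nonneg_left h4 (by positivity)
    · refine le_trans ?_ h1
      rw [pow_succ]
      have h4 : (0 : ℝ) ≤ 128 * K * T * ρ := by positivity
      calc 128 * K * (T : ℝ) * ρ = 128 * K * T * ρ * 1 := by ring
        _ ≤ 128 * K * T * ρ * (8 * K) ^ j := mul_le_mul_of_nonneg_left h8 h4
        _ = 16 * T * ρ * ((8 * K) ^ j * (8 * K)) := by ring
    · have e1 : (x : ℝ) * (N / (2 * K * x)) = x * N / (2 * K * x) := by ring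
      rw [e1, le_div_iff₀ (by positivity)]
      have e2 : 16 * (T : ℝ) * (4 * ρ / x) * (8 * K) ^ j * (2 * K * x) =
          16 * T * ρ * (8 * K) ^ (j + 1) := by
        field_simp
        ring
      rw [e2]
      exact h1
    · rw [le_div_iff₀ (by positivity)]
      calc 8 * (T : ℝ) * (2 * K * x) ^ j * (2 * K * x) = 8 * T * (2 * K * x) ^ (j + 1) := by ring
        _ ≤ N := h2
    · rw [lt_div_iff₀ (by positivity)]
      calc (T : ℝ) * (2 * K * x) ^ j * (2 * K * x) = T * (2 * K * x) ^ (j + 1) := by ring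
        _ < N := h3

open Classical in
theorem Q_univ : (Q (univ : Finset (Tup (K + 1) n)) : ℝ) ≤
    ((K + 1 : ℕ) : ℝ) * (n : ℝ) ^ K * (univ : Finset (Tup (K + 1) n)).card := by
  have h1 : Q (univ : Finset (Tup (K + 1) n)) ≤
      ((univ : Finset (Tup (K + 1) n)) ×ˢ ((univ : Finset (Fin (K + 1))) ×ˢ
        (univ : Finset (Fin K → Fin n)))).card := by
    unfold Q
    refine card_le_card_of_surjOn (fun q : Tup (K + 1) n × Fin (K + 1) × (Fin K → Fin n) =>
      (q.1, q.2.1.insertNth (q.1 q.2.1) q.2.2)) ?_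
    rintro ⟨s, s'⟩ hp
    rw [mem_coe, mem_filter] at hp
    obtain ⟨-, -, e, h1, h2⟩ := hp
    unfold On at h1 h2
    refine ⟨(s, e.1, e.1.removeNth s'), by simp, ?_⟩
    simp only [Prod.mk.injEq, true_and]
    simp only at h1 h2
    rw [h1, ← h2]
    exact Fin.insertNth_self_removeNth e.1 s'
  have h2 : (((univ : Finset (Tup (K + 1) n)) ×ˢ ((univ : Finset (Fin (K + 1))) ×ˢ
        (univ : Finset (Fin K → Fin n)))).card : ℝ) =
      ((K + 1 : ℕ) : ℝ) * (n : ℝ) ^ K * (univ : Finset (Tup (K + 1) n)).card := by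
    rw [card_product, card_product, card_univ, card_univ, card_univ, Fintype.card_fin]
    simp only [Fintype.card_pi, Fintype.card_fin, prod_const, card_univ]
    push_cast
    ring
  calc (Q (univ : Finset (Tup (K + 1) n)) : ℝ) ≤ _ := by exact_mod_cast h1
    _ = _ := h2

end Pool.Agent.H692.KS
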