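import Mathlib
import Pool.Agent.H692.KS.Main

/-!
# The lower bound for trees with few rounds
-/

set_option autoImplicit false

namespace Pool.Agent.H692.KS

open Finset Filter Topology

variable {K n : ℕ}

theorem tradeoff (hK : 1 ≤ K) {c : Fin (K + 1) → ℝ} (hc : ∀ p, c p ≠ 0) {κ : Type} [Finite κ]
    {E : κ → Var (K + 1) n → ℝ} (hE : Indep c E) {P : Type} [TopologicalSpace P] [BaireSpace P]
    {pot : P → Var (K + 1) n → ℝ} (hpot : Continuous pot) (hval : ∀ y s, val c (pot y) s = 0)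
    (hEpot : ∀ y e, dot (E e) (pot y) = 0)
    {W : Set (Var (K + 1) n → ℝ)} (hW : IsOpen W) {y₀ : P} (hy₀ : pot y₀ ∈ W)
    {β : Type} (φ : β → Bool) (t : RTree pot β) (hn : 1 ≤ n) {r T x : ℕ} (hr : 1 ≤ r)
    (hx : 1 ≤ x)
    (hno : ∀ w ∈ W, (∀ s, val c w s ≠ 0) → (∀ e, dot (E e) w ≠ 0) →
      φ (t.run w) = false ∧ t.rounds w ≤ r ∧ t.tests w ≤ T)
    (hyes : ∀ w ∈ W, ∀ τ, val c w τ = 0 → (∀ s, s ≠ τ → val c w s ≠ 0) →
      (∀ e, dot (E e) w ≠ 0) → φ (t.run w) = true) :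
    (n : ℝ) ^ (K + 1) ≤ 8 * (2 * K * x) ^ (r - 1) * T ∨
      (x : ℝ) * n ≤ 16 * (K + 1) * (8 * K) ^ (r - 1) * T := by
  classical
  by_contra! hcon
  obtain ⟨hc1, hc2⟩ := hcon
  obtain ⟨x₀, hxW, hgood⟩ : ∃ x₀, pot x₀ ∈ W ∧ Good φ t x₀ := by
    have hd : Dense {x | Good φ t x} := dense_of_mem_residual (good hpot φ t)
    obtain ⟨x₀, h1, h2⟩ := hd.inter_open_nonempty (pot ⁻¹' W) (hW.preimage hpot) ⟨y₀, hy₀⟩
    exact ⟨x₀, h1, h2⟩
  have hev : ∀ u : Var (K + 1) n → ℝ, (red φ t x₀).Gen u → ∃ ε : ℝ, 0 < ε ∧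
      pot x₀ + ε • u ∈ W ∧
      φ (t.run (pot x₀ + ε • u)) = (red φ t x₀).run u ∧
      (red φ t x₀).rounds u = t.rounds (pot x₀ + ε • u) ∧
      (red φ t x₀).tests u = t.tests (pot x₀ + ε • u) := by
    intro u hu
    obtain ⟨ε, ⟨h2, h3⟩, h4⟩ :=
      (((hgood u hu).and ((tendsto_line (pot x₀) u).eventually (hW.mem_nhds hxW))).and
        self_mem_nhdsWithin).exists
    exact ⟨ε, h4, h3, h2⟩
  have hv : ∀ (ε : ℝ) (u : Var (K + 1) n → ℝ) (s : Tup (K + 1) n),
      val c (pot x₀ + ε • u) s = ε * val c u s := by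
    intro ε u s
    rw [val_add_smul, hval, zero_add]
  have hEv : ∀ (ε : ℝ) (u : Var (K + 1) n → ℝ) e,
      dot (E e) (pot x₀ + ε • u) = ε * dot (E e) u := by
    intro ε u e
    rw [dot_add_smul, hEpot, zero_add]
  have hSt : St c E (red φ t x₀) T r Set.univ := by
    refine ⟨isOpen_univ, ?_, ?_⟩
    · intro u _ hu huE hG
      obtain ⟨ε, hε, h1, h2, h3, h4⟩ := hev u hG
      have h6 := hno _ h1 (fun s => by rw [hv]; exact mul_ne_zero hε.ne' (hu s))
        (fun e => by rw [hEv]; exact mul_ne_zero hε.ne' (huE e))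
      rw [← h2, h3, h4]
      exact h6
    · intro u _ τ hτ hu huE hG
      obtain ⟨ε, hε, h1, h2, -⟩ := hev u hG
      have h6 := hyes _ h1 τ (by rw [hv, hτ, mul_zero])
        (fun s hs => by rw [hv]; exact mul_ne_zero hε.ne' (hu s hs))
        (fun e => by rw [hEv]; exact mul_ne_zero hε.ne' (huE e))
      rw [← h2]
      exact h6
  obtain ⟨j, rfl⟩ : ∃ j, r = j + 1 := ⟨r - 1, by omega⟩
  rw [Nat.add_sub_cancel] at hc1 hc2
  have hn' : (1 : ℝ) ≤ n := by exact_mod_cast hn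
  have hcard : ((univ : Finset (Tup (K + 1) n)).card : ℝ) = (n : ℝ) ^ (K + 1) := by
    rw [card_univ]
    simp
  have hT0 : (0 : ℝ) ≤ T := Nat.cast_nonneg T
  have hKx : (0 : ℝ) ≤ (2 * K * x : ℝ) ^ j := by positivity
  refine main hK hc hE (by omega : 0 < x) (j + 1) (red φ t x₀) Set.univ 0 univ
    ((n : ℝ) ^ (K + 1)) ((K + 1 : ℕ) * (n : ℝ) ^ K) hSt (Set.mem_univ _)
    (fun s _ => by rw [← dot_form]; unfold dot; simp) (by positivity) ?_ hcard.ge Q_univ
  refine cond_of hK (by omega : 0 < x) j _ _ (by positivity) (by positivity) ?_ ?_ ?_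
  · have h1 : 16 * (T : ℝ) * ((K + 1 : ℕ) * (n : ℝ) ^ K) * (8 * K) ^ j =
        16 * (K + 1) * (8 * K) ^ j * T * n ^ K := by push_cast; ring
    rw [h1]
    calc 16 * (K + 1) * (8 * K) ^ j * (T : ℝ) * n ^ K ≤ (x : ℝ) * n * n ^ K :=
          mul_le_mul_of_nonneg_right hc2.le (by positivity)
      _ = x * n ^ (K + 1) := by ring
  · linarith
  · have h1 : 0 ≤ (T : ℝ) * (2 * K * x) ^ j := by positivity
    linarith

/-- the exponent -/
theorem headline (hK : 1 ≤ K) {c : Fin (K + 1) → ℝ} (hc : ∀ p, c p ≠ 0) {κ : Type} [Finite κ]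
    {E : κ → Var (K + 1) n → ℝ} (hE : Indep c E) {P : Type} [TopologicalSpace P] [BaireSpace P]
    {pot : P → Var (K + 1) n → ℝ} (hpot : Continuous pot) (hval : ∀ y s, val c (pot y) s = 0)
    (hEpot : ∀ y e, dot (E e) (pot y) = 0)
    {W : Set (Var (K + 1) n → ℝ)} (hW : IsOpen W) {y₀ : P} (hy₀ : pot y₀ ∈ W)
    {β : Type} (φ : β → Bool) (t : RTree pot β) (hn : 1 ≤ n) {r T : ℕ} (hr : 1 ≤ r)
    (hno : ∀ w ∈ W, (∀ s, val c w s ≠ 0) → (∀ e, dot (E e) w ≠ 0) →
      φ (t.run w) = false ∧ t.rounds w ≤ r ∧ t.tests w ≤ T)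
    (hyes : ∀ w ∈ W, ∀ τ, val c w τ = 0 → (∀ s, s ≠ τ → val c w s ≠ 0) →
      (∀ e, dot (E e) w ≠ 0) → φ (t.run w) = true) :
    (n : ℝ) ^ (1 + (K : ℝ) / r) ≤ 16 * (K + 1) * (8 * K) ^ (r - 1) * T := by
  have hn' : (1 : ℝ) ≤ n := by exact_mod_cast hn
  have hn0 : (0 : ℝ) < n := by linarith
  have hr0 : (0 : ℝ) < r := by exact_mod_cast (by omega : 0 < r)
  have hK' : (0 : ℝ) < K := by exact_mod_cast hK
  set y : ℝ := (n : ℝ) ^ ((K : ℝ) / r) with hy
  have hy1 : 1 ≤ y := Real.one_le_rpow hn' (by positivity)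
  have hy0 : 0 < y := by linarith
  have hyr : y ^ r = (n : ℝ) ^ K := by
    rw [hy, ← Real.rpow_natCast, ← Real.rpow_mul hn0.le, div_mul_cancel₀ _ hr0.ne',
      Real.rpow_natCast]
  have hmain : (n : ℝ) ^ (1 + (K : ℝ) / r) = n * y := by
    rw [Real.rpow_add hn0, Real.rpow_one]
  rw [hmain]
  set x : ℕ := ⌈y⌉₊ with hx
  have hx1 : y ≤ x := Nat.le_ceil _
  have hx2 : (x : ℝ) < y + 1 := Nat.ceil_lt_add_one hy0.le
  have hx3 : (x : ℝ) ≤ 2 * y := by linarith
  have hx4 : 1 ≤ x := by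
    have : (1 : ℝ) ≤ x := by linarith
    exact_mod_cast this
  have hT0 : (0 : ℝ) ≤ T := Nat.cast_nonneg T
  rcases tradeoff hK hc hE hpot hval hEpot hW hy₀ φ t hn hr hx4 hno hyes with h | h
  · obtain ⟨j, rfl⟩ : ∃ j, r = j + 1 := ⟨r - 1, by omega⟩
    rw [Nat.add_sub_cancel] at h ⊢
    have h1 : (2 * K * x : ℝ) ^ j ≤ (4 * K * y) ^ j := by
      refine pow_le_pow_left₀ (by positivity) ?_ j
      calc (2 * K * x : ℝ) ≤ 2 * K * (2 * y) := mul_le_mul_of_nonneg_left hx3 (by positivity)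
        _ = 4 * K * y := by ring
    have h2 : (n : ℝ) ^ (K + 1) = n * y * y ^ j := by
      calc (n : ℝ) ^ (K + 1) = n * n ^ K := by ring
        _ = n * y ^ (j + 1) := by rw [hyr]
        _ = n * y * y ^ j := by ring
    have h3 : 8 * (2 * K * x : ℝ) ^ j * T ≤ 8 * (4 * K) ^ j * T * y ^ j := by
      calc 8 * (2 * K * x : ℝ) ^ j * T ≤ 8 * (4 * K * y) ^ j * T := by
            refine mul_le_mul_of_nonneg_right ?_ hT0
            linarith
        _ = 8 * (4 * K) ^ j * T * y ^ j := by rw [mul_pow]; ring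
    have h4 : (n : ℝ) * y ≤ 8 * (4 * K) ^ j * T := by
      have h5 : (0 : ℝ) < y ^ j := by positivity
      rw [h2] at h
      exact le_of_mul_le_mul_right (h.trans h3) h5
    refine h4.trans ?_
    refine mul_le_mul_of_nonneg_right ?_ hT0
    have h6 : (4 * K : ℝ) ^ j ≤ (8 * K) ^ j :=
      pow_le_pow_left₀ (by positivity) (by linarith) j
    have h7 : (0 : ℝ) < (8 * K) ^ j := by positivity
    calc 8 * (4 * K : ℝ) ^ j ≤ 8 * (8 * K) ^ j := by linarith
      _ ≤ 16 * (K + 1) * (8 * K) ^ j := by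
        refine mul_le_mul_of_nonneg_right ?_ h7.le
        linarith
  · refine le_trans ?_ h
    rw [mul_comm]
    exact mul_le_mul_of_nonneg_right hx1 hn0.le

/-! ### the special inputs -/

/-- The list in which all numbers of the part `p` are equal to `(y p - m) / c p`, where `m` is the
mean of the `y q`; so all linear forms `∑ c p * w (p, s p)` vanish. -/
noncomputable def pot {K n : ℕ} (c : Fin (K + 1) → ℝ) (y : Fin (K + 1) → ℝ) :
    Var (K + 1) n → ℝ :=
  fun v => (y v.1 - (∑ q, y q) / (K + 1)) / c v.1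

theorem pot_continuous (c : Fin (K + 1) → ℝ) :
    Continuous (pot c : (Fin (K + 1) → ℝ) → Var (K + 1) n → ℝ) := by
  unfold pot
  fun_prop

theorem val_pot {c : Fin (K + 1) → ℝ} (hc : ∀ p, c p ≠ 0) (y : Fin (K + 1) → ℝ)
    (s : Tup (K + 1) n) : val c (pot c y) s = 0 := by
  unfold val pot
  have h1 : ∀ p ∈ (univ : Finset (Fin (K + 1))),
      c p * ((y p - (∑ q, y q) / (K + 1)) / c p) = y p - (∑ q, y q) / (K + 1) := by
    intro p _
    have := hc p
    field_simp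
  simp only
  rw [sum_congr rfl h1, sum_sub_distrib, sum_const, card_univ, Fintype.card_fin, nsmul_eq_mul]
  have : (K : ℝ) + 1 ≠ 0 := by positivity
  push_cast
  field_simp
  ring

theorem pot_analytic (c : Fin (K + 1) → ℝ) :
    AnalyticOnNhd ℝ (pot c : (Fin (K + 1) → ℝ) → Var (K + 1) n → ℝ) Set.univ := by
  intro y _
  unfold pot
  rw [analyticAt_pi_iff]
  intro v
  have h1 : ∀ q : Fin (K + 1), AnalyticAt ℝ (fun z : Fin (K + 1) → ℝ => z q) y := fun q =>
    (ContinuousLinearMap.proj (R := ℝ) (φ := fun _ : Fin (K + 1) => ℝ) q).analyticAt y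
  have h2 : AnalyticAt ℝ (fun z : Fin (K + 1) → ℝ => ∑ q, z q) y :=
    Finset.analyticAt_fun_sum _ fun q _ => h1 q
  exact ((h1 v.1).sub (h2.div_const)).div_const

/-- the pairs of different numbers of the same part -/
abbrev Pr (K n : ℕ) : Type := {q : Var (K + 1) n × Var (K + 1) n // q.1 ≠ q.2 ∧ q.1.1 = q.2.1}

open Classical in
/-- the differences of numbers of the same part -/
noncomputable def dif (q : Pr K n) : Var (K + 1) n → ℝ :=
  Pi.single q.1.1 1 - Pi.single q.1.2 1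

theorem dot_dif (q : Pr K n) (w : Var (K + 1) n → ℝ) :
    dot (dif q) w = w q.1.1 - w q.1.2 := by
  classical
  unfold dot dif
  have h : ∀ e, (Pi.single q.1.1 1 - Pi.single q.1.2 1 : Var (K + 1) n → ℝ) e * w e =
      (if e = q.1.1 then w e else 0) - (if e = q.1.2 then w e else 0) := by
    intro e
    rw [Pi.sub_apply, Pi.single_apply, Pi.single_apply]
    split_ifs <;> ring
  rw [sum_congr rfl fun e _ => h e, sum_sub_distrib]
  simp

theorem indep_dif (c : Fin (K + 1) → ℝ) :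
    Indep c (dif : Pr K n → Var (K + 1) n → ℝ) := by
  classical
  intro q
  have h1 : dif q q.1.1 = 1 := by
    unfold dif
    rw [Pi.sub_apply, Pi.single_eq_same, Pi.single_eq_of_ne q.2.1, sub_zero]
  have h2 : dif q q.1.2 = -1 := by
    unfold dif
    rw [Pi.sub_apply, Pi.single_eq_same, Pi.single_eq_of_ne q.2.1.symm, zero_sub]
  refine ⟨fun h => ?_, fun s a h => ?_⟩
  · rw [h] at h1
    norm_num at h1
  · rw [h, Pi.smul_apply, smul_eq_mul] at h1 h2
    unfold form at h1 h2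
    have h3 : s q.1.1.1 = q.1.1.2 := by
      by_contra hne
      rw [if_neg hne, mul_zero] at h1
      norm_num at h1
    have h4 : s q.1.2.1 = q.1.2.2 := by
      by_contra hne
      rw [if_neg hne, mul_zero] at h2
      norm_num at h2
    refine q.2.1 (Prod.ext q.2.2 ?_)
    rw [← h3, ← h4, q.2.2]

theorem dif_pot (c : Fin (K + 1) → ℝ) (y : Fin (K + 1) → ℝ) (q : Pr K n) :
    dot (dif q) (pot c y) = 0 := by
  rw [dot_dif]
  unfold pot
  rw [q.2.2, sub_self]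

end Pool.Agent.H692.KS
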