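import Mathlib
import Pool.Agent.H692.KS.Final

/-!
# 3SUM for one list
-/

set_option autoImplicit false

namespace Pool.Agent.H692.KS

open Finset Filter Topology

variable {n : ℕ}

/-- the coefficients of `a + b - c` -/
def c3 : Fin (2 + 1) → ℝ := ![1, 1, -1]

theorem c3_ne : ∀ p, c3 p ≠ 0 := by
  intro p
  fin_cases p <;> simp [c3]

theorem val_c3 (w : Var (2 + 1) n → ℝ) (s : Tup (2 + 1) n) :
    val c3 w s = w (0, s 0) + w (1, s 1) - w (2, s 2) := by
  unfold val c3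
  rw [Fin.sum_univ_three]
  simp
  ring

/-- the numbers of the three parts are near `1`, `3` and `4` -/
def near : Set (Var (2 + 1) n → ℝ) :=
  {w | ∀ i, |w (0, i) - 1| < 1 / 4 ∧ |w (1, i) - 3| < 1 / 4 ∧ |w (2, i) - 4| < 1 / 4}

theorem near_open : IsOpen (near : Set (Var (2 + 1) n → ℝ)) := by
  have : (near : Set (Var (2 + 1) n → ℝ)) = ⋂ i : Fin n, {w | |w (0, i) - 1| < 1 / 4 ∧
      |w (1, i) - 3| < 1 / 4 ∧ |w (2, i) - 4| < 1 / 4} := by
    ext w
    simp [near]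
  rw [this]
  refine isOpen_iInter_of_finite fun i => ?_
  have h : ∀ (v : Var (2 + 1) n) (a : ℝ), IsOpen {w : Var (2 + 1) n → ℝ | |w v - a| < 1 / 4} :=
    fun v a => isOpen_lt (((continuous_apply v).sub continuous_const).abs) continuous_const
  exact (h _ _).inter ((h _ _).inter (h _ _))

theorem pot_near : (pot c3 ![1, 3, -4] : Var (2 + 1) n → ℝ) ∈ near := by
  intro i
  unfold pot c3
  rw [Fin.sum_univ_three]
  simp
  norm_num

/-- three distinct places `a`, `b`, `c` with `w a + w b = w c` -/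
def IsSol (w : Fin 3 × Fin n → ℝ) (a b c : Fin 3 × Fin n) : Prop :=
  a ≠ b ∧ a ≠ c ∧ b ≠ c ∧ w a + w b = w c

theorem parts_of_sol {w : Var (2 + 1) n → ℝ} (hw : w ∈ near) {a b c : Var (2 + 1) n}
    (h : w a + w b = w c) :
    (∃ i j k, a = (0, i) ∧ b = (1, j) ∧ c = (2, k)) ∨
      (∃ i j k, a = (1, j) ∧ b = (0, i) ∧ c = (2, k)) := by
  obtain ⟨p, i⟩ := a
  obtain ⟨q, j⟩ := b
  obtain ⟨r, k⟩ := c
  have h1 := hw i
  have h2 := hw j
  have h3 := hw k
  simp only [abs_lt] at h1 h2 h3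
  fin_cases p <;> fin_cases q <;> fin_cases r <;> simp at h ⊢ <;> linarith

theorem inj_of_near {w : Var (2 + 1) n → ℝ} (hw : w ∈ near)
    (hE : ∀ e : Pr 2 n, dot (dif e) w ≠ 0) : Function.Injective w := by
  intro a b hab
  by_contra hne
  by_cases hp : a.1 = b.1
  · have h1 := hE ⟨(a, b), hne, hp⟩
    rw [dot_dif] at h1
    exact h1 (sub_eq_zero.2 hab)
  · obtain ⟨p, i⟩ := a
    obtain ⟨q, j⟩ := b
    have h1 := hw i
    have h2 := hw j
    simp only [abs_lt] at h1 h2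
    simp only at hp
    fin_cases p <;> fin_cases q <;> simp at hab hp <;> linarith

theorem three_sum (hn : 1 ≤ n) {r T : ℕ} (hr : 1 ≤ r) {β : Type} (φ : β → Bool)
    (t : RTree (pot c3 : (Fin (2 + 1) → ℝ) → Var (2 + 1) n → ℝ) β)
    (hno : ∀ w : Fin 3 × Fin n → ℝ, Function.Injective w → (∀ a b c, ¬ IsSol w a b c) →
      φ (t.run w) = false ∧ t.rounds w ≤ r ∧ t.tests w ≤ T)
    (hyes : ∀ w : Fin 3 × Fin n → ℝ, Function.Injective w →
      (∃ a b c, IsSol w a b c ∧ ∀ a' b' c', IsSol w a' b' c' →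
        c' = c ∧ (a' = a ∧ b' = b ∨ a' = b ∧ b' = a)) → φ (t.run w) = true) :
    (n : ℝ) ^ (1 + 2 / (r : ℝ)) ≤ 3 * 16 ^ r * T := by
  have h := headline (K := 2) (n := n) (by norm_num) c3_ne (indep_dif c3) (pot_continuous c3)
    (val_pot c3_ne) (dif_pot c3) near_open (y₀ := ![1, 3, -4]) pot_near φ t hn hr (T := T) ?_ ?_
  · obtain ⟨j, rfl⟩ : ∃ j, r = j + 1 := ⟨r - 1, by omega⟩
    rw [Nat.add_sub_cancel] at h
    push_cast at h ⊢
    refine h.trans (le_of_eq ?_)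
    rw [show (8 * 2 : ℝ) = 16 by norm_num]
    ring
  · intro w hw h1 h2
    refine hno w (inj_of_near hw h2) ?_
    rintro a b c ⟨-, -, -, h3⟩
    rcases parts_of_sol hw h3 with ⟨i, j, k, rfl, rfl, rfl⟩ | ⟨i, j, k, rfl, rfl, rfl⟩
    · have h4 := h1 ![i, j, k]
      rw [val_c3] at h4
      simp at h4
      exact h4 (by linarith)
    · have h4 := h1 ![i, j, k]
      rw [val_c3] at h4
      simp at h4
      exact h4 (by linarith)
  · intro w hw τ h1 h2 h3
    refine hyes w (inj_of_near hw h3) ?_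
    rw [val_c3] at h1
    refine ⟨(0, τ 0), (1, τ 1), (2, τ 2), ⟨by simp, by simp, by simp, by linarith⟩, ?_⟩
    rintro a b c ⟨-, -, -, h4⟩
    have key : ∀ i j k, w (0, i) + w (1, j) = w (2, k) → i = τ 0 ∧ j = τ 1 ∧ k = τ 2 := by
      intro i j k h5
      by_contra hne
      have h6 := h2 ![i, j, k] (by
        intro h7
        refine hne ⟨?_, ?_, ?_⟩
        · rw [← h7]; rfl
        · rw [← h7]; rfl
        · rw [← h7]; rfl)
      rw [val_c3] at h6
      simp at h6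
      exact h6 (by linarith)
    rcases parts_of_sol hw h4 with ⟨i, j, k, rfl, rfl, rfl⟩ | ⟨i, j, k, rfl, rfl, rfl⟩
    · obtain ⟨rfl, rfl, rfl⟩ := key i j k h4
      exact ⟨rfl, Or.inl ⟨rfl, rfl⟩⟩
    · obtain ⟨rfl, rfl, rfl⟩ := key i j k (by linarith)
      exact ⟨rfl, Or.inr ⟨rfl, rfl⟩⟩

end Pool.Agent.H692.KS
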